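import Pool.Agent.Helper25.KV.Goals

/-!
# Packet GP2: `L^2` bounds of the packets
-/

set_option autoImplicit false

namespace Pool.Agent.Helper25.KV

open Real MeasureTheory Set Filter Topology
open scoped ENNReal

namespace GPh59

lemma bd (f : ℝ → ℝ) (a b B : ℝ) (hab : a ≤ b) (hf : Continuous f) (hB : ∀ x, |f x| ≤ B)
    (hs : ∀ x, f x ≠ 0 → x ∈ Icc a b) :
    Integrable (fun x => f x ^ 2) ∧ (∫ x, f x ^ 2) ≤ B ^ 2 * (b - a) := by
  have hint : Integrable ((Icc a b).indicator (fun _ => B ^ 2)) volume := by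
    rw [integrable_indicator_iff measurableSet_Icc]
    exact integrableOn_const (by simp) (by simp)
  have hle : ∀ x, f x ^ 2 ≤ (Icc a b).indicator (fun _ => B ^ 2) x := by
    intro x
    by_cases hx : f x = 0
    · rw [hx]
      simp only [ne_eq, OfNat.ofNat_ne_zero, not_false_eq_true, zero_pow]
      exact indicator_nonneg (fun _ _ => sq_nonneg B) x
    · rw [indicator_of_mem (hs x hx), ← sq_abs]
      exact pow_le_pow_left₀ (abs_nonneg _) (hB x) 2
  have h1 : Integrable (fun x => f x ^ 2) volume :=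
    hint.mono' (hf.pow 2).aestronglyMeasurable (Eventually.of_forall fun x => by
      rw [Real.norm_eq_abs, abs_of_nonneg (sq_nonneg _)]; exact hle x)
  refine ⟨h1, ?_⟩
  calc (∫ x, f x ^ 2) ≤ ∫ x, (Icc a b).indicator (fun _ => B ^ 2) x := integral_mono h1 hint hle
    _ = B ^ 2 * (b - a) := by
      rw [integral_indicator measurableSet_Icc, setIntegral_const]
      rw [smul_eq_mul, Measure.real, Real.volume_Icc, ENNReal.toReal_ofReal (by linarith)]
      ring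

lemma tsum_cases (P : ℕ → ℝ → ℝ) (hd : ∀ x j k, P j x ≠ 0 → P k x ≠ 0 → j = k) (x : ℝ) :
    (∀ k, P k x = 0) ∨ ∃ j, ∀ k, k ≠ j → P k x = 0 := by
  by_cases h : ∀ k, P k x = 0
  · exact Or.inl h
  · push Not at h
    obtain ⟨j, hj⟩ := h
    refine Or.inr ⟨j, fun k hk => ?_⟩
    by_contra hne
    exact hk (hd x k j hne hj)

lemma summ (P : ℕ → ℝ → ℝ) (hd : ∀ x j k, P j x ≠ 0 → P k x ≠ 0 → j = k) (x : ℝ) :
    Summable (fun k => P k x) := by
  rcases tsum_cases P hd x with h | ⟨j, hj⟩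
  · simp [h]
  · exact (hasSum_single j hj).summable

lemma sq_tsum (P : ℕ → ℝ → ℝ) (hd : ∀ x j k, P j x ≠ 0 → P k x ≠ 0 → j = k) (x : ℝ) :
    ENNReal.ofReal ((∑' k, P k x) ^ 2) = ∑' k, ENNReal.ofReal (P k x ^ 2) := by
  rcases tsum_cases P hd x with h | ⟨j, hj⟩
  · simp [h]
  · rw [tsum_eq_single j hj, tsum_eq_single j (fun k hk => by rw [hj k hk]; simp)]

lemma main (P : ℕ → ℝ → ℝ) (a : ℕ → ℝ) (hc : ∀ k, Continuous (P k))
    (hd : ∀ x j k, P j x ≠ 0 → P k x ≠ 0 → j = k)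
    (hi : ∀ k, Integrable (fun x => P k x ^ 2)) (ha : ∀ k, (∫ x, P k x ^ 2) ≤ a k)
    (hs : Summable a) :
    Integrable (fun x => (∑' k, P k x) ^ 2) ∧ (∫ x, (∑' k, P k x) ^ 2) ≤ ∑' k, a k := by
  have ha0 : ∀ k, 0 ≤ a k := fun k => (integral_nonneg fun x => sq_nonneg _).trans (ha k)
  have hm : ∀ k, Measurable fun x => ENNReal.ofReal (P k x ^ 2) :=
    fun k => (((hc k).pow 2).measurable).ennreal_ofReal
  have hmt : Measurable fun x => ∑' k, ENNReal.ofReal (P k x ^ 2) := Measurable.tsum hm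
  have hL : (∫⁻ x, ∑' k, ENNReal.ofReal (P k x ^ 2)) ≤ ENNReal.ofReal (∑' k, a k) := by
    rw [lintegral_tsum (fun k => (hm k).aemeasurable), ENNReal.ofReal_tsum_of_nonneg ha0 hs]
    refine ENNReal.tsum_le_tsum fun k => ?_
    rw [← ofReal_integral_eq_lintegral_ofReal (hi k) (Eventually.of_forall fun x => sq_nonneg _)]
    exact ENNReal.ofReal_le_ofReal (ha k)
  have hfun : (fun x => (∑' k, P k x) ^ 2)
      = fun x => (∑' k, ENNReal.ofReal (P k x ^ 2)).toReal := by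
    funext x
    rw [← sq_tsum P hd x, ENNReal.toReal_ofReal (sq_nonneg _)]
  have hfin : (∫⁻ x, ∑' k, ENNReal.ofReal (P k x ^ 2)) ≠ ∞ :=
    (hL.trans_lt ENNReal.ofReal_lt_top).ne
  rw [hfun]
  refine ⟨integrable_toReal_of_lintegral_ne_top hmt.aemeasurable hfin, ?_⟩
  rw [integral_toReal hmt.aemeasurable (Eventually.of_forall fun x => by
    rw [← sq_tsum P hd x]; exact ENNReal.ofReal_lt_top)]
  have := ENNReal.toReal_mono ENNReal.ofReal_ne_top hL
  rwa [ENNReal.toReal_ofReal (tsum_nonneg ha0)] at this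

/-- interpolation of two bounds -/
lemma interp (v x y κ : ℝ) (hv : 0 ≤ v) (hx : v ≤ x) (hy : v ≤ y) (h0 : 0 < κ) (h1 : κ < 1) :
    v ≤ x ^ (1 - κ) * y ^ κ := by
  calc v = v ^ (1 - κ) * v ^ κ := by
        rw [← Real.rpow_add_of_nonneg hv (by linarith) h0.le]
        simp
    _ ≤ x ^ (1 - κ) * y ^ κ := by
        apply mul_le_mul
        · exact Real.rpow_le_rpow hv hx (by linarith)
        · exact Real.rpow_le_rpow hv hy h0.le
        · exact Real.rpow_nonneg hv _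
        · exact Real.rpow_nonneg (hv.trans hx) _

lemma abs_cos_sub_le (a b : ℝ) : |Real.cos a - Real.cos b| ≤ |a - b| := by
  have := Real.abs_cos_sub_cos_le a b
  exact this


lemma main2 (P : ℕ → ℝ → ℝ) (a e : ℕ → ℝ) (hc : ∀ k, Continuous (P k))
    (hd : ∀ x j k, P j x ≠ 0 → P k x ≠ 0 → j = k)
    (hi : ∀ k, Integrable (fun x => P k x ^ 2)) (ha : ∀ k, (∫ x, P k x ^ 2) ≤ a k)
    (hs : Summable a) (he : ∀ k, e k ^ 2 ≤ 1) :
    Integrable (fun x => (∑' k, e k * P k x) ^ 2) ∧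
      (∫ x, (∑' k, e k * P k x) ^ 2) ≤ ∑' k, e k ^ 2 * a k := by
  have ha0 : ∀ k, 0 ≤ a k := fun k => (integral_nonneg fun x => sq_nonneg _).trans (ha k)
  refine main (fun k x => e k * P k x) (fun k => e k ^ 2 * a k) (fun k => (hc k).const_mul _)
    ?_ ?_ ?_ ?_
  · intro x j k hj hk
    exact hd x j k (fun h => hj (by simp [h])) (fun h => hk (by simp [h]))
  · intro k
    have := (hi k).const_mul (e k ^ 2)
    refine this.congr (Eventually.of_forall fun x => ?_)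
    exact (mul_pow _ _ _).symm
  · intro k
    have h1 : (∫ x, (e k * P k x) ^ 2) = e k ^ 2 * ∫ x, P k x ^ 2 := by
      rw [← integral_const_mul]
      refine integral_congr_ae (Eventually.of_forall fun x => ?_)
      exact mul_pow _ _ _
    show (∫ x, (e k * P k x) ^ 2) ≤ e k ^ 2 * a k
    rw [h1]
    exact mul_le_mul_of_nonneg_left (ha k) (sq_nonneg _)
  · refine Summable.of_nonneg_of_le (fun k => mul_nonneg (sq_nonneg _) (ha0 k)) (fun k => ?_) hs
    calc e k ^ 2 * a k ≤ 1 * a k := mul_le_mul_of_nonneg_right (he k) (ha0 k)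
      _ = a k := one_mul _

section packets

variable (m M K : ℕ) (t : ℝ)

lemma pk_cont (hb : Continuous bmp) : Continuous (pk m M K t) := by
  unfold pk
  have h1 : Continuous fun x : ℝ => bmp ((x + 4 * 4 ^ (M * K)) / 4 ^ (m * K)) :=
    hb.comp (by fun_prop)
  exact (h1.mul (by fun_prop)).div_const _

lemma pk_supp (hb0 : ∀ y, 1 ≤ |y| → bmp y = 0) (x : ℝ) (h : pk m M K t x ≠ 0) :
    -(4 * 4 ^ (M * K)) - 4 ^ (m * K) ≤ x ∧ x ≤ -(4 * 4 ^ (M * K)) + 4 ^ (m * K) := by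
  have h1 : |(x + 4 * 4 ^ (M * K)) / 4 ^ (m * K)| < 1 := by
    by_contra hc
    apply h
    unfold pk
    rw [hb0 _ (not_lt.1 hc)]
    simp
  have h4 : (0 : ℝ) < 4 ^ (m * K) := by positivity
  rw [abs_div, abs_of_pos h4, div_lt_one h4, abs_lt] at h1
  constructor <;> linarith [h1.1, h1.2]

lemma pk_abs (hb1 : ∀ y, 0 ≤ bmp y) (hb2 : ∀ y, bmp y ≤ 1) (x : ℝ) :
    |pk m M K t x| ≤ 1 / (2 ^ K * 2 ^ (m * K)) := by
  unfold pk
  rw [abs_div, abs_of_pos (by positivity : (0 : ℝ) < 2 ^ K * 2 ^ (m * K))]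
  apply div_le_div_of_nonneg_right _ (by positivity)
  rw [abs_mul]
  calc _ ≤ (1 : ℝ) * 1 := by
        apply mul_le_mul
        · rw [abs_of_nonneg (hb1 _)]; exact hb2 _
        · exact Real.abs_cos_le_one _
        · exact abs_nonneg _
        · norm_num
    _ = 1 := one_mul _

lemma pk_time (hb1 : ∀ y, 0 ≤ bmp y) (hb2 : ∀ y, bmp y ≤ 1) (s x : ℝ) :
    |pk m M K t x - pk m M K s x|
      ≤ 2 * (8 ^ K * |t - s|) ^ ((1 : ℝ) / 6) / (2 ^ K * 2 ^ (m * K)) := by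
  have hpos : (0 : ℝ) < 2 ^ K * 2 ^ (m * K) := by positivity
  have e1 : pk m M K t x - pk m M K s x = bmp ((x + 4 * 4 ^ (M * K)) / 4 ^ (m * K)) *
      (Real.cos (2 ^ K * x + 8 ^ K * t) - Real.cos (2 ^ K * x + 8 ^ K * s))
        / (2 ^ K * 2 ^ (m * K)) := by
    unfold pk; ring
  rw [e1, abs_div, abs_of_pos hpos]
  apply div_le_div_of_nonneg_right _ hpos.le
  set v := |Real.cos (2 ^ K * x + 8 ^ K * t) - Real.cos (2 ^ K * x + 8 ^ K * s)| with hv
  have v1 : v ≤ 2 := by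
    have h1 := Real.abs_cos_le_one (2 ^ K * x + 8 ^ K * t)
    have h2 := Real.abs_cos_le_one (2 ^ K * x + 8 ^ K * s)
    calc v ≤ |Real.cos (2 ^ K * x + 8 ^ K * t)| + |Real.cos (2 ^ K * x + 8 ^ K * s)| :=
          abs_sub _ _
      _ ≤ 2 := by linarith
  have v2 : v ≤ 8 ^ K * |t - s| := by
    calc v ≤ |(2 ^ K * x + 8 ^ K * t) - (2 ^ K * x + 8 ^ K * s)| := abs_cos_sub_le _ _
      _ = 8 ^ K * |t - s| := by
        rw [show (2 ^ K * x + 8 ^ K * t) - (2 ^ K * x + 8 ^ K * s) = 8 ^ K * (t - s) by ring,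
          abs_mul, abs_of_pos (by positivity)]
  have v3 := interp v 2 (8 ^ K * |t - s|) (1 / 6) (abs_nonneg _) v1 v2 (by norm_num) (by norm_num)
  have h2 : (2 : ℝ) ^ (1 - (1 / 6) : ℝ) ≤ 2 := by
    calc (2 : ℝ) ^ (1 - (1 / 6) : ℝ) ≤ (2 : ℝ) ^ (1 : ℝ) :=
          Real.rpow_le_rpow_of_exponent_le (by norm_num) (by norm_num)
      _ = 2 := Real.rpow_one 2
  have h3 : 0 ≤ (8 ^ K * |t - s|) ^ ((1 : ℝ) / 6) := Real.rpow_nonneg (by positivity) _
  rw [abs_mul, abs_of_nonneg (hb1 _)]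
  calc bmp ((x + 4 * 4 ^ (M * K)) / 4 ^ (m * K)) * v ≤ 1 * v :=
        mul_le_mul_of_nonneg_right (hb2 _) (abs_nonneg _)
    _ = v := one_mul v
    _ ≤ _ := v3
    _ ≤ 2 * (8 ^ K * |t - s|) ^ ((1 : ℝ) / 6) := mul_le_mul_of_nonneg_right h2 h3

lemma pk_space (D : ℝ) (hb : ContDiff ℝ (⊤ : ℕ∞) bmp) (hb1 : ∀ y, 0 ≤ bmp y)
    (hb2 : ∀ y, bmp y ≤ 1) (hD : ∀ y, |deriv bmp y| ≤ D) (κ : ℝ) (h0 : 0 < κ) (h1 : κ < 1)
    (x h : ℝ) (hh : 0 < h) :
    |pk m M K t (x + h) - pk m M K t x|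
      ≤ 2 * (D + 1) * h ^ κ * (((1 / 2 : ℝ) ^ (1 - κ)) ^ K) / 2 ^ (m * K) := by
  have hD0 : 0 ≤ D := (abs_nonneg _).trans (hD 0)
  have hpm : (0 : ℝ) < 2 ^ (m * K) := by positivity
  have hpK : (0 : ℝ) < 2 ^ K := by positivity
  rw [le_div_iff₀ hpm]
  set v := |pk m M K t (x + h) - pk m M K t x| * 2 ^ (m * K) with hv
  have v1 : v ≤ 2 * (1 / 2) ^ K := by
    have a1 := pk_abs m M K t hb1 hb2 (x + h)
    have a2 := pk_abs m M K t hb1 hb2 x
    have a3 : |pk m M K t (x + h) - pk m M K t x| ≤ 2 / (2 ^ K * 2 ^ (m * K)) := by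
      calc _ ≤ |pk m M K t (x + h)| + |pk m M K t x| := abs_sub _ _
        _ ≤ 1 / (2 ^ K * 2 ^ (m * K)) + 1 / (2 ^ K * 2 ^ (m * K)) := add_le_add a1 a2
        _ = _ := by ring
    calc v ≤ 2 / (2 ^ K * 2 ^ (m * K)) * 2 ^ (m * K) := mul_le_mul_of_nonneg_right a3 hpm.le
      _ = 2 * (1 / 2) ^ K := by
        rw [one_div_pow]
        field_simp
  have v2 : v ≤ (D + 1) * h := by
    have e1 : pk m M K t (x + h) - pk m M K t x
        = ((bmp ((x + h + 4 * 4 ^ (M * K)) / 4 ^ (m * K))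
              - bmp ((x + 4 * 4 ^ (M * K)) / 4 ^ (m * K)))
            * Real.cos (2 ^ K * (x + h) + 8 ^ K * t)
          + bmp ((x + 4 * 4 ^ (M * K)) / 4 ^ (m * K))
            * (Real.cos (2 ^ K * (x + h) + 8 ^ K * t) - Real.cos (2 ^ K * x + 8 ^ K * t)))
          / (2 ^ K * 2 ^ (m * K)) := by
      unfold pk; ring
    have b1 : |bmp ((x + h + 4 * 4 ^ (M * K)) / 4 ^ (m * K))
        - bmp ((x + 4 * 4 ^ (M * K)) / 4 ^ (m * K))| ≤ D * 2 ^ K * h := by
      have := Convex.norm_image_sub_le_of_norm_deriv_le (f := bmp) (s := univ)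
        (x := (x + 4 * 4 ^ (M * K)) / 4 ^ (m * K)) (y := (x + h + 4 * 4 ^ (M * K)) / 4 ^ (m * K))
        (C := D)
        (fun y _ => (hb.differentiable (by simp)) y) (fun y _ => by
          rw [Real.norm_eq_abs]; exact hD y) convex_univ (mem_univ _) (mem_univ _)
      rw [Real.norm_eq_abs, Real.norm_eq_abs] at this
      have e2 : |(x + h + 4 * 4 ^ (M * K)) / 4 ^ (m * K) - (x + 4 * 4 ^ (M * K)) / 4 ^ (m * K)|
          ≤ 2 ^ K * h := by
        rw [← sub_div, show x + h + 4 * 4 ^ (M * K) - (x + 4 * 4 ^ (M * K)) = h by ring,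
          abs_of_pos (by positivity)]
        have h4 : (1 : ℝ) ≤ 4 ^ (m * K) := one_le_pow₀ (by norm_num)
        have h2 : (1 : ℝ) ≤ 2 ^ K := one_le_pow₀ (by norm_num)
        calc h / 4 ^ (m * K) ≤ h := div_le_self hh.le h4
          _ ≤ 2 ^ K * h := by nlinarith
      calc _ ≤ _ := this
        _ ≤ D * (2 ^ K * h) := mul_le_mul_of_nonneg_left e2 hD0
        _ = D * 2 ^ K * h := by ring
    have b2 : |Real.cos (2 ^ K * (x + h) + 8 ^ K * t) - Real.cos (2 ^ K * x + 8 ^ K * t)|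
        ≤ 2 ^ K * h := by
      calc _ ≤ |(2 ^ K * (x + h) + 8 ^ K * t) - (2 ^ K * x + 8 ^ K * t)| := abs_cos_sub_le _ _
        _ = 2 ^ K * h := by
          rw [show (2 ^ K * (x + h) + 8 ^ K * t) - (2 ^ K * x + 8 ^ K * t) = 2 ^ K * h by ring,
            abs_of_pos (by positivity)]
    have b3 : |pk m M K t (x + h) - pk m M K t x|
        ≤ (D * 2 ^ K * h + 2 ^ K * h) / (2 ^ K * 2 ^ (m * K)) := by
      rw [e1, abs_div, abs_of_pos (by positivity : (0 : ℝ) < 2 ^ K * 2 ^ (m * K))]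
      apply div_le_div_of_nonneg_right _ (by positivity)
      refine (abs_add_le _ _).trans (add_le_add ?_ ?_)
      · rw [abs_mul]
        calc _ ≤ (D * 2 ^ K * h) * 1 := by
              apply mul_le_mul b1 (Real.abs_cos_le_one _) (abs_nonneg _)
              positivity
          _ = _ := mul_one _
      · rw [abs_mul, abs_of_nonneg (hb1 _)]
        calc _ ≤ 1 * (2 ^ K * h) := by
              apply mul_le_mul (hb2 _) b2 (abs_nonneg _) (by norm_num)
          _ = _ := one_mul _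
    calc v ≤ (D * 2 ^ K * h + 2 ^ K * h) / (2 ^ K * 2 ^ (m * K)) * 2 ^ (m * K) :=
          mul_le_mul_of_nonneg_right b3 hpm.le
      _ = (D + 1) * h := by field_simp
  have hv0 : 0 ≤ v := by positivity
  have v3 := interp v _ _ κ hv0 v1 v2 h0 h1
  have c1 : (2 * (1 / 2 : ℝ) ^ K) ^ (1 - κ) ≤ 2 * ((1 / 2 : ℝ) ^ (1 - κ)) ^ K := by
    rw [Real.mul_rpow (by norm_num) (by positivity)]
    have c2 : (2 : ℝ) ^ (1 - κ) ≤ 2 := by
      calc (2 : ℝ) ^ (1 - κ) ≤ (2 : ℝ) ^ (1 : ℝ) :=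
            Real.rpow_le_rpow_of_exponent_le (by norm_num) (by linarith)
        _ = 2 := Real.rpow_one 2
    have c3 : ((1 / 2 : ℝ) ^ K) ^ (1 - κ) = ((1 / 2 : ℝ) ^ (1 - κ)) ^ K := by
      rw [← Real.rpow_natCast, ← Real.rpow_natCast, ← Real.rpow_mul (by norm_num),
        ← Real.rpow_mul (by norm_num), mul_comm]
    rw [c3]
    exact mul_le_mul_of_nonneg_right c2 (by positivity)
  have c4 : ((D + 1) * h) ^ κ ≤ (D + 1) * h ^ κ := by
    rw [Real.mul_rpow (by positivity) hh.le]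
    apply mul_le_mul_of_nonneg_right _ (by positivity)
    calc (D + 1) ^ κ ≤ (D + 1) ^ (1 : ℝ) :=
          Real.rpow_le_rpow_of_exponent_le (by linarith) h1.le
      _ = D + 1 := Real.rpow_one _
  calc v ≤ _ := v3
    _ ≤ (2 * ((1 / 2 : ℝ) ^ (1 - κ)) ^ K) * ((D + 1) * h ^ κ) :=
        mul_le_mul c1 c4 (by positivity) (by positivity)
    _ = _ := by ring

lemma I_pk (hb : Continuous bmp) (hb1 : ∀ y, 0 ≤ bmp y) (hb2 : ∀ y, bmp y ≤ 1)
    (hb0 : ∀ y, 1 ≤ |y| → bmp y = 0) :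
    Integrable (fun x => pk m M K t x ^ 2) ∧ (∫ x, pk m M K t x ^ 2) ≤ 2 * (1 / 4) ^ K := by
  have h := bd (pk m M K t) (-(4 * 4 ^ (M * K)) - 4 ^ (m * K)) (-(4 * 4 ^ (M * K)) + 4 ^ (m * K))
    (1 / (2 ^ K * 2 ^ (m * K))) (by linarith [(by positivity : (0 : ℝ) < 4 ^ (m * K))])
    (pk_cont m M K t hb) (pk_abs m M K t hb1 hb2) (fun x hx => pk_supp m M K t hb0 x hx)
  refine ⟨h.1, h.2.trans (le_of_eq ?_)⟩
  have e1 : (4 : ℝ) ^ (m * K) = (2 ^ (m * K)) ^ 2 := by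
    rw [show (4 : ℝ) = 2 ^ 2 by norm_num, ← pow_mul, ← pow_mul, mul_comm]
  have e2 : ((1 : ℝ) / 4) ^ K = 1 / (2 ^ K) ^ 2 := by
    rw [one_div_pow, ← pow_mul, mul_comm K 2, pow_mul]; norm_num
  rw [e1, e2]
  field_simp
  ring

lemma I_time (hb : Continuous bmp) (hb1 : ∀ y, 0 ≤ bmp y) (hb2 : ∀ y, bmp y ≤ 1)
    (hb0 : ∀ y, 1 ≤ |y| → bmp y = 0) (s : ℝ) :
    Integrable (fun x => (pk m M K t x - pk m M K s x) ^ 2) ∧
      (∫ x, (pk m M K t x - pk m M K s x) ^ 2) ≤ 8 * |t - s| ^ ((1 : ℝ) / 3) * (1 / 2) ^ K := by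
  have h := bd (fun x => pk m M K t x - pk m M K s x)
    (-(4 * 4 ^ (M * K)) - 4 ^ (m * K)) (-(4 * 4 ^ (M * K)) + 4 ^ (m * K))
    (2 * (8 ^ K * |t - s|) ^ ((1 : ℝ) / 6) / (2 ^ K * 2 ^ (m * K)))
    (by linarith [(by positivity : (0 : ℝ) < 4 ^ (m * K))])
    ((pk_cont m M K t hb).sub (pk_cont m M K s hb)) (pk_time m M K t hb1 hb2 s) (fun x hx => by
      by_cases h1 : pk m M K t x = 0
      · have h2 : pk m M K s x ≠ 0 := by
          intro h2
          apply hx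
          simp [h1, h2]
        exact pk_supp m M K s hb0 x h2
      · exact pk_supp m M K t hb0 x h1)
  refine ⟨h.1, h.2.trans (le_of_eq ?_)⟩
  have e1 : (4 : ℝ) ^ (m * K) = (2 ^ (m * K)) ^ 2 := by
    rw [show (4 : ℝ) = 2 ^ 2 by norm_num, ← pow_mul, ← pow_mul, mul_comm]
  have e3 : ((8 ^ K * |t - s|) ^ ((1 : ℝ) / 6)) ^ 2 = 2 ^ K * |t - s| ^ ((1 : ℝ) / 3) := by
    rw [← Real.rpow_natCast, ← Real.rpow_mul (by positivity)]
    rw [show (1 : ℝ) / 6 * ((2 : ℕ) : ℝ) = 1 / 3 by norm_num]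
    rw [Real.mul_rpow (by positivity) (abs_nonneg _)]
    congr 1
    rw [show (8 : ℝ) = 2 ^ 3 by norm_num, ← pow_mul, mul_comm, pow_mul]
    rw [← Real.rpow_natCast (2 ^ K) 3, ← Real.rpow_mul (by positivity)]
    norm_num
  have e4 : (2 * (8 ^ K * |t - s|) ^ ((1 : ℝ) / 6) / (2 ^ K * 2 ^ (m * K))) ^ 2
      = 4 * (2 ^ K * |t - s| ^ ((1 : ℝ) / 3)) / (2 ^ K * 2 ^ (m * K)) ^ 2 := by
    rw [div_pow, mul_pow, e3]; norm_num
  rw [e4, e1, one_div_pow]
  field_simp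
  ring

lemma I_space (D : ℝ) (hb : ContDiff ℝ (⊤ : ℕ∞) bmp) (hb1 : ∀ y, 0 ≤ bmp y)
    (hb2 : ∀ y, bmp y ≤ 1) (hb0 : ∀ y, 1 ≤ |y| → bmp y = 0)
    (hD : ∀ y, |deriv bmp y| ≤ D) (κ : ℝ) (h0 : 0 < κ) (h1 : κ < 1)
    (h : ℝ) (hh : 0 < h) (hh1 : h ≤ 1) :
    Integrable (fun x => (pk m M K t (x + h) - pk m M K t x) ^ 2) ∧
      (∫ x, (pk m M K t (x + h) - pk m M K t x) ^ 2)
        ≤ 12 * (D + 1) ^ 2 * h ^ (2 * κ) * (((1 / 2 : ℝ) ^ (1 - κ)) ^ 2) ^ K := by
  have h4 : (1 : ℝ) ≤ 4 ^ (m * K) := one_le_pow₀ (by norm_num)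
  have hc := pk_cont m M K t hb.continuous
  have hbd := bd (fun x => pk m M K t (x + h) - pk m M K t x)
    (-(4 * 4 ^ (M * K)) - 4 ^ (m * K) - h) (-(4 * 4 ^ (M * K)) + 4 ^ (m * K))
    (2 * (D + 1) * h ^ κ * (((1 / 2 : ℝ) ^ (1 - κ)) ^ K) / 2 ^ (m * K))
    (by linarith)
    ((hc.comp (by fun_prop : Continuous fun x : ℝ => x + h)).sub hc)
    (fun x => pk_space m M K t D hb hb1 hb2 hD κ h0 h1 x h hh) (fun x hx => by
      by_cases h1 : pk m M K t x = 0
      · have h2 : pk m M K t (x + h) ≠ 0 := by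
          intro h2
          apply hx
          simp [h1, h2]
        have := pk_supp m M K t hb0 (x + h) h2
        constructor <;> linarith [this.1, this.2]
      · have := pk_supp m M K t hb0 x h1
        constructor <;> linarith [this.1, this.2])
  refine ⟨hbd.1, hbd.2.trans ?_⟩
  have e1 : (4 : ℝ) ^ (m * K) = (2 ^ (m * K)) ^ 2 := by
    rw [show (4 : ℝ) = 2 ^ 2 by norm_num, ← pow_mul, ← pow_mul, mul_comm]
  have e2 : h ^ (2 * κ) = (h ^ κ) ^ 2 := by
    rw [← Real.rpow_natCast, ← Real.rpow_mul hh.le]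
    congr 1
    push_cast
    ring
  have e5 : (((1 / 2 : ℝ) ^ (1 - κ)) ^ 2) ^ K = (((1 / 2 : ℝ) ^ (1 - κ)) ^ K) ^ 2 := by
    rw [← pow_mul, ← pow_mul, mul_comm]
  rw [e2, e5]
  set X := h ^ κ
  set Y := ((1 / 2 : ℝ) ^ (1 - κ)) ^ K
  calc (2 * (D + 1) * X * Y / 2 ^ (m * K)) ^ 2 *
        (-(4 * 4 ^ (M * K)) + 4 ^ (m * K) - (-(4 * 4 ^ (M * K)) - 4 ^ (m * K) - h))
      ≤ (2 * (D + 1) * X * Y / 2 ^ (m * K)) ^ 2 * (3 * 4 ^ (m * K)) := by
        apply mul_le_mul_of_nonneg_left _ (sq_nonneg _)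
        linarith
    _ = 12 * (D + 1) ^ 2 * X ^ 2 * Y ^ 2 := by
        rw [e1]
        field_simp
        ring

end packets

section final

variable (M k0 : ℕ)

lemma disj (hg : ∀ j k : ℕ, j < k → (3 : ℝ) * 4 ^ (M * k) ≥ 5 * 4 ^ (M * j) + 1)
    (P : ℕ → ℝ → ℝ) (hs : ∀ k x, P k x ≠ 0 →
      -(5 * 4 ^ (M * (k0 + k))) - 1 < x ∧ x < -(3 * 4 ^ (M * (k0 + k)))) :
    ∀ x j k, P j x ≠ 0 → P k x ≠ 0 → j = k := by
  intro x j k hj hk
  have h1 := hs j x hj
  have h2 := hs k x hk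
  rcases lt_trichotomy j k with h | h | h
  · have := hg (k0 + j) (k0 + k) (by omega)
    exfalso
    linarith [h1.1, h2.2]
  · exact h
  · have := hg (k0 + k) (k0 + j) (by omega)
    exfalso
    linarith [h1.2, h2.1]

lemma four_le (K : ℕ) (r : ℝ) (h0 : 0 ≤ r) (h1 : r ≤ 1) (k : ℕ) : r ^ (K + k) ≤ r ^ k := by
  rw [pow_add]
  calc r ^ K * r ^ k ≤ 1 * r ^ k :=
        mul_le_mul_of_nonneg_right (pow_le_one₀ h0 h1) (pow_nonneg h0 _)
    _ = r ^ k := one_mul _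

lemma gp_eq (m : ℕ) (n : ℕ) (t x : ℝ) :
    gp m M k0 n t x = ∑' k, (if k < n then (1 : ℝ) else 0) * pk m M (k0 + k) t x := by
  unfold gp
  rw [tsum_eq_sum (s := Finset.range n)]
  · refine Finset.sum_congr rfl fun k hk => ?_
    rw [if_pos (Finset.mem_range.1 hk), one_mul]
  · intro k hk
    rw [if_neg (fun h => hk (Finset.mem_range.2 h)), zero_mul]

end final

end GPh59

open GPh59 in
theorem thm_GP2 (hGP1 : H_GP1) : H_GP2 := by
  intro m M k0 κ hm hmM hκ0 hκ1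
  obtain ⟨⟨hb, hb1, hb2, hb0, -, D, hD⟩, hGP⟩ := hGP1
  obtain ⟨hsup, hgap, -, -, -, -, -⟩ := hGP m M k0 hm hmM
  have hD0 : 0 ≤ D := (abs_nonneg _).trans (hD 0)
  set q : ℝ := ((1 / 2 : ℝ) ^ (1 - κ)) ^ 2 with hq
  have hq0 : 0 ≤ q := by positivity
  have hq1 : q < 1 := by
    have h1 : (1 / 2 : ℝ) ^ (1 - κ) < 1 :=
      Real.rpow_lt_one (by norm_num) (by norm_num) (by linarith)
    have h0 : (0 : ℝ) ≤ (1 / 2 : ℝ) ^ (1 - κ) := by positivity
    exact pow_lt_one₀ h0 h1 (by norm_num)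
  have sq : Summable fun k : ℕ => q ^ k := summable_geometric_of_lt_one hq0 hq1
  have s4 : Summable fun k : ℕ => (1 / 4 : ℝ) ^ k :=
    summable_geometric_of_lt_one (by norm_num) (by norm_num)
  have s2 : Summable fun k : ℕ => (1 / 2 : ℝ) ^ k :=
    summable_geometric_of_lt_one (by norm_num) (by norm_num)
  -- supports
  have dpk : ∀ t, ∀ x j k, pk m M (k0 + j) t x ≠ 0 → pk m M (k0 + k) t x ≠ 0 → j = k := by
    intro t
    refine disj M k0 hgap (fun k x => pk m M (k0 + k) t x) (fun k x hx => ?_)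
    have := hsup (k0 + k) t x hx
    constructor <;> linarith [this.1, this.2]
  have dsp : ∀ t h, 0 < h → h ≤ 1 → ∀ x j k,
      pk m M (k0 + j) t (x + h) - pk m M (k0 + j) t x ≠ 0 →
      pk m M (k0 + k) t (x + h) - pk m M (k0 + k) t x ≠ 0 → j = k := by
    intro t h hh0 hh1
    refine disj M k0 hgap (fun k x => pk m M (k0 + k) t (x + h) - pk m M (k0 + k) t x)
      (fun k x hx => ?_)
    by_cases h1 : pk m M (k0 + k) t x = 0
    · have h2 : pk m M (k0 + k) t (x + h) ≠ 0 := by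
        intro h2
        apply hx
        simp [h1, h2]
      have := hsup (k0 + k) t (x + h) h2
      constructor <;> linarith [this.1, this.2]
    · have := hsup (k0 + k) t x h1
      constructor <;> linarith [this.1, this.2]
  have dti : ∀ t s : ℝ, ∀ x j k,
      pk m M (k0 + j) t x - pk m M (k0 + j) s x ≠ 0 →
      pk m M (k0 + k) t x - pk m M (k0 + k) s x ≠ 0 → j = k := by
    intro t s
    refine disj M k0 hgap (fun k x => pk m M (k0 + k) t x - pk m M (k0 + k) s x)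
      (fun k x hx => ?_)
    by_cases h1 : pk m M (k0 + k) t x = 0
    · have h2 : pk m M (k0 + k) s x ≠ 0 := by
        intro h2
        apply hx
        simp [h1, h2]
      have := hsup (k0 + k) s x h2
      constructor <;> linarith [this.1, this.2]
    · have := hsup (k0 + k) t x h1
      constructor <;> linarith [this.1, this.2]
  have spk : ∀ t x, Summable fun k => pk m M (k0 + k) t x :=
    fun t x => summ (fun k x => pk m M (k0 + k) t x) (dpk t) x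
  have sgp : ∀ (n : ℕ) t x, Summable fun k => (if k < n then (1 : ℝ) else 0) * pk m M (k0 + k) t x := by
    intro n t x
    refine summ (fun k x => (if k < n then (1 : ℝ) else 0) * pk m M (k0 + k) t x) ?_ x
    intro x j k hj hk
    exact dpk t x j k (fun h => hj (by simp [h])) (fun h => hk (by simp [h]))
  have ind1 : ∀ (n k : ℕ), (if k < n then (1 : ℝ) else 0) ^ 2 ≤ 1 := by
    intro n k; split_ifs <;> norm_num
  have ind2 : ∀ (n k : ℕ), ((if k < n then (1 : ℝ) else 0) - 1) ^ 2 ≤ 1 := by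
    intro n k; split_ifs <;> norm_num
  have hcont : ∀ K t, Continuous (pk m M K t) := fun K t => pk_cont m M K t hb.continuous
  -- the three basic estimates
  have A1 : ∀ (e : ℕ → ℝ) (t : ℝ), (∀ k, e k ^ 2 ≤ 1) →
      Integrable (fun x => (∑' k, e k * pk m M (k0 + k) t x) ^ 2) ∧
      (∫ x, (∑' k, e k * pk m M (k0 + k) t x) ^ 2) ≤ ∑' k, e k ^ 2 * (2 * (1 / 4) ^ k) := by
    intro e t he
    refine main2 (fun k x => pk m M (k0 + k) t x) (fun k => 2 * (1 / 4) ^ k) e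
      (fun k => hcont _ t) (dpk t)
      (fun k => (I_pk m M (k0 + k) t hb.continuous hb1 hb2 hb0).1)
      (fun k => (I_pk m M (k0 + k) t hb.continuous hb1 hb2 hb0).2.trans ?_) (s4.mul_left 2) he
    exact mul_le_mul_of_nonneg_left (four_le k0 _ (by norm_num) (by norm_num) k) (by norm_num)
  have A2 : ∀ (e : ℕ → ℝ) (t h : ℝ), 0 < h → h ≤ 1 → (∀ k, e k ^ 2 ≤ 1) →
      Integrable (fun x => (∑' k, e k * (pk m M (k0 + k) t (x + h) - pk m M (k0 + k) t x)) ^ 2) ∧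
      (∫ x, (∑' k, e k * (pk m M (k0 + k) t (x + h) - pk m M (k0 + k) t x)) ^ 2)
        ≤ ∑' k, e k ^ 2 * (12 * (D + 1) ^ 2 * h ^ (2 * κ) * q ^ k) := by
    intro e t h hh0 hh1 he
    refine main2 (fun k x => pk m M (k0 + k) t (x + h) - pk m M (k0 + k) t x)
      (fun k => 12 * (D + 1) ^ 2 * h ^ (2 * κ) * q ^ k) e
      (fun k => ((hcont _ t).comp (by fun_prop : Continuous fun x : ℝ => x + h)).sub (hcont _ t))
      (dsp t h hh0 hh1)
      (fun k => (I_space m M (k0 + k) t D hb hb1 hb2 hb0 hD κ hκ0 hκ1 h hh0 hh1).1)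
      (fun k => (I_space m M (k0 + k) t D hb hb1 hb2 hb0 hD κ hκ0 hκ1 h hh0 hh1).2.trans ?_)
      (sq.mul_left _) he
    exact mul_le_mul_of_nonneg_left (four_le k0 _ hq0 hq1.le k) (by positivity)
  have A3 : ∀ (t s : ℝ),
      Integrable (fun x => (∑' k, (1 : ℝ) * (pk m M (k0 + k) t x - pk m M (k0 + k) s x)) ^ 2) ∧
      (∫ x, (∑' k, (1 : ℝ) * (pk m M (k0 + k) t x - pk m M (k0 + k) s x)) ^ 2)
        ≤ ∑' k : ℕ, (1 : ℝ) ^ 2 * (8 * |t - s| ^ ((1 : ℝ) / 3) * (1 / 2) ^ k) := by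
    intro t s
    refine main2 (fun k x => pk m M (k0 + k) t x - pk m M (k0 + k) s x)
      (fun k => 8 * |t - s| ^ ((1 : ℝ) / 3) * (1 / 2) ^ k) (fun _ => 1)
      (fun k => (hcont _ t).sub (hcont _ s)) (dti t s)
      (fun k => (I_time m M (k0 + k) t hb.continuous hb1 hb2 hb0 s).1)
      (fun k => (I_time m M (k0 + k) t hb.continuous hb1 hb2 hb0 s).2.trans ?_)
      (s2.mul_left _) (fun _ => by norm_num)
    exact mul_le_mul_of_nonneg_left (four_le k0 _ (by norm_num) (by norm_num) k) (by positivity)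
  -- bounds of the sums
  have S1 : ∀ e : ℕ → ℝ, (∀ k, e k ^ 2 ≤ 1) → (∑' k, e k ^ 2 * (2 * (1 / 4 : ℝ) ^ k)) ≤ 3 := by
    intro e he
    have hle : ∀ k, e k ^ 2 * (2 * (1 / 4 : ℝ) ^ k) ≤ 2 * (1 / 4 : ℝ) ^ k := by
      intro k
      calc e k ^ 2 * (2 * (1 / 4 : ℝ) ^ k) ≤ 1 * (2 * (1 / 4 : ℝ) ^ k) :=
            mul_le_mul_of_nonneg_right (he k) (by positivity)
        _ = _ := one_mul _
    have hsum : Summable fun k => e k ^ 2 * (2 * (1 / 4 : ℝ) ^ k) :=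
      Summable.of_nonneg_of_le (fun k => by positivity) hle (s4.mul_left 2)
    calc _ ≤ ∑' k : ℕ, 2 * (1 / 4 : ℝ) ^ k := hsum.tsum_le_tsum hle (s4.mul_left 2)
      _ = 2 * (1 - 1 / 4)⁻¹ := by
        rw [tsum_mul_left, tsum_geometric_of_lt_one (by norm_num) (by norm_num)]
      _ ≤ 3 := by norm_num
  have S2 : ∀ (e : ℕ → ℝ) (h : ℝ), 0 < h → (∀ k, e k ^ 2 ≤ 1) →
      (∑' k, e k ^ 2 * (12 * (D + 1) ^ 2 * h ^ (2 * κ) * q ^ k))
        ≤ (12 * (D + 1) ^ 2 * (1 - q)⁻¹) * h ^ (2 * κ) := by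
    intro e h hh he
    have hle : ∀ k, e k ^ 2 * (12 * (D + 1) ^ 2 * h ^ (2 * κ) * q ^ k)
        ≤ 12 * (D + 1) ^ 2 * h ^ (2 * κ) * q ^ k := by
      intro k
      calc e k ^ 2 * (12 * (D + 1) ^ 2 * h ^ (2 * κ) * q ^ k)
          ≤ 1 * (12 * (D + 1) ^ 2 * h ^ (2 * κ) * q ^ k) :=
            mul_le_mul_of_nonneg_right (he k) (by positivity)
        _ = _ := one_mul _
    have hsum : Summable fun k => e k ^ 2 * (12 * (D + 1) ^ 2 * h ^ (2 * κ) * q ^ k) :=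
      Summable.of_nonneg_of_le (fun k => by positivity) hle (sq.mul_left _)
    calc _ ≤ ∑' k : ℕ, 12 * (D + 1) ^ 2 * h ^ (2 * κ) * q ^ k :=
          hsum.tsum_le_tsum hle (sq.mul_left _)
      _ = 12 * (D + 1) ^ 2 * h ^ (2 * κ) * (1 - q)⁻¹ := by
        rw [tsum_mul_left, tsum_geometric_of_lt_one hq0 hq1]
      _ ≤ _ := le_of_eq (by ring)
  have S3 : ∀ t s : ℝ, (∑' k : ℕ, (1 : ℝ) ^ 2 * (8 * |t - s| ^ ((1 : ℝ) / 3) * (1 / 2) ^ k))
      = 16 * |t - s| ^ ((1 : ℝ) / 3) := by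
    intro t s
    simp only [one_pow, one_mul]
    rw [tsum_mul_left, tsum_geometric_of_lt_one (by norm_num) (by norm_num)]
    norm_num
    ring
  have S4 : ∀ n : ℕ, (∑' k, ((if k < n then (1 : ℝ) else 0) - 1) ^ 2 * (2 * (1 / 4 : ℝ) ^ k))
      ≤ 3 * (1 / 4) ^ n := by
    intro n
    have hle : ∀ k, ((if k < n then (1 : ℝ) else 0) - 1) ^ 2 * (2 * (1 / 4 : ℝ) ^ k)
        ≤ 2 * (1 / 4 : ℝ) ^ k := by
      intro k
      calc _ ≤ 1 * (2 * (1 / 4 : ℝ) ^ k) :=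
            mul_le_mul_of_nonneg_right (ind2 n k) (by positivity)
        _ = _ := one_mul _
    have hsum : Summable fun k => ((if k < n then (1 : ℝ) else 0) - 1) ^ 2 * (2 * (1 / 4 : ℝ) ^ k) :=
      Summable.of_nonneg_of_le (fun k => by positivity) hle (s4.mul_left 2)
    rw [← hsum.sum_add_tsum_nat_add n]
    have z1 : (∑ k ∈ Finset.range n,
        ((if k < n then (1 : ℝ) else 0) - 1) ^ 2 * (2 * (1 / 4 : ℝ) ^ k)) = 0 := by
      refine Finset.sum_eq_zero fun k hk => ?_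
      rw [if_pos (Finset.mem_range.1 hk)]
      norm_num
    have z2 : (∑' k, ((if k + n < n then (1 : ℝ) else 0) - 1) ^ 2 * (2 * (1 / 4 : ℝ) ^ (k + n)))
        = 2 * (1 / 4) ^ n * (1 - 1 / 4)⁻¹ := by
      rw [← tsum_geometric_of_lt_one (r := (1 / 4 : ℝ)) (by norm_num) (by norm_num),
        ← tsum_mul_left]
      refine tsum_congr fun k => ?_
      rw [if_neg (by omega), pow_add]
      ring
    rw [z1, z2]
    have hp : (0 : ℝ) ≤ (1 / 4) ^ n := by positivity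
    have hi : (1 - 1 / 4 : ℝ)⁻¹ = 4 / 3 := by norm_num
    rw [hi, zero_add]
    nlinarith
  have one : ∀ (t x : ℝ), ginf m M k0 t x = ∑' k, (1 : ℝ) * pk m M (k0 + k) t x := by
    intro t x
    unfold ginf
    simp only [one_mul]
  have hq1' : 0 < 1 - q := by linarith
  refine ⟨3 + 12 * (D + 1) ^ 2 * (1 - q)⁻¹ + 16, by positivity, ?_, ?_, ?_, ?_, ?_, ?_⟩
  · intro n t
    have h := A1 (fun k => if k < n then 1 else 0) t (ind1 n)
    have h' := S1 (fun k => if k < n then 1 else 0) (ind1 n)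
    simp only [gp_eq]
    refine ⟨h.1, h.2.trans (h'.trans ?_)⟩
    have : 0 ≤ 12 * (D + 1) ^ 2 * (1 - q)⁻¹ := by positivity
    linarith
  · intro t
    have h := A1 (fun k => 1) t (fun k => by norm_num)
    have h' := S1 (fun k => 1) (fun k => by norm_num)
    simp only [one]
    refine ⟨h.1, h.2.trans (h'.trans ?_)⟩
    have : 0 ≤ 12 * (D + 1) ^ 2 * (1 - q)⁻¹ := by positivity
    linarith
  · intro n t h hh0 hh1
    have g := A2 (fun k => if k < n then 1 else 0) t h hh0 hh1 (ind1 n)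
    have g' := S2 (fun k => if k < n then 1 else 0) h hh0 (ind1 n)
    have heq : ∀ x, gp m M k0 n t (x + h) - gp m M k0 n t x = ∑' k, (if k < n then (1 : ℝ) else 0) *
        (pk m M (k0 + k) t (x + h) - pk m M (k0 + k) t x) := by
      intro x
      rw [gp_eq, gp_eq, ← (sgp n t (x + h)).tsum_sub (sgp n t x)]
      refine tsum_congr fun k => ?_
      ring
    simp only [heq]
    refine ⟨g.1, g.2.trans (g'.trans ?_)⟩
    apply mul_le_mul_of_nonneg_right _ (by positivity)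
    linarith
  · intro t h hh0 hh1
    have g := A2 (fun k => 1) t h hh0 hh1 (fun k => by norm_num)
    have g' := S2 (fun k => 1) h hh0 (fun k => by norm_num)
    have heq : ∀ x, ginf m M k0 t (x + h) - ginf m M k0 t x = ∑' k, (1 : ℝ) *
        (pk m M (k0 + k) t (x + h) - pk m M (k0 + k) t x) := by
      intro x
      unfold ginf
      rw [← (spk t (x + h)).tsum_sub (spk t x)]
      simp only [one_mul]
    simp only [heq]
    refine ⟨g.1, g.2.trans (g'.trans ?_)⟩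
    apply mul_le_mul_of_nonneg_right _ (by positivity)
    linarith
  · intro n t
    have g := A1 (fun k => (if k < n then 1 else 0) - 1) t (ind2 n)
    have g' := S4 n
    have heq : ∀ x, gp m M k0 n t x - ginf m M k0 t x = ∑' k, ((if k < n then (1 : ℝ) else 0) - 1) *
        pk m M (k0 + k) t x := by
      intro x
      rw [gp_eq, one, ← (sgp n t x).tsum_sub (by simpa using spk t x)]
      refine tsum_congr fun k => ?_
      ring
    simp only [heq]
    refine ⟨g.1, g.2.trans (g'.trans ?_)⟩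
    apply mul_le_mul_of_nonneg_right _ (by positivity)
    have : 0 ≤ 12 * (D + 1) ^ 2 * (1 - q)⁻¹ := by positivity
    linarith
  · intro t s
    have g := A3 t s
    rw [S3 t s] at g
    have heq : ∀ x, ginf m M k0 t x - ginf m M k0 s x = ∑' k, (1 : ℝ) *
        (pk m M (k0 + k) t x - pk m M (k0 + k) s x) := by
      intro x
      unfold ginf
      rw [← (spk t x).tsum_sub (spk s x)]
      simp only [one_mul]
    simp only [heq]
    refine ⟨g.1, g.2.trans ?_⟩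
    apply mul_le_mul_of_nonneg_right _ (by positivity)
    have : 0 ≤ 12 * (D + 1) ^ 2 * (1 - q)⁻¹ := by positivity
    linarith

end Pool.Agent.Helper25.KV
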