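import Pool.Agent.Helper48.KV.GoalsG1

/-!
# Packet KV-G ALG: elementary inequalities for the nonlinear terms
-/

set_option autoImplicit false

namespace Pool.Agent.Helper59.KV

open Pool.Agent.Helper48.KV

lemma mono59 (a b : ℝ) (ha : 0 ≤ a) (hb : 0 ≤ b) (i k n : ℕ) :
    a ^ i * b ^ (k + n) ≤ a ^ (i + k) * b ^ n + b ^ (i + k + n) := by
  rcases le_total a b with h | h
  · have h1 : a ^ i ≤ b ^ i := pow_le_pow_left₀ ha h i
    calc a ^ i * b ^ (k + n) ≤ b ^ i * b ^ (k + n) :=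
          mul_le_mul_of_nonneg_right h1 (by positivity)
      _ = b ^ (i + k + n) := by rw [← pow_add, add_assoc]
      _ ≤ _ := by
        have : 0 ≤ a ^ (i + k) * b ^ n := by positivity
        linarith
  · have h1 : b ^ k ≤ a ^ k := pow_le_pow_left₀ hb h k
    calc a ^ i * b ^ (k + n) = a ^ i * b ^ n * b ^ k := by ring
      _ ≤ a ^ i * b ^ n * a ^ k := mul_le_mul_of_nonneg_left h1 (by positivity)
      _ = a ^ (i + k) * b ^ n := by ring
      _ ≤ _ := by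
        have : 0 ≤ b ^ (i + k + n) := by positivity
        linarith

theorem alg : S_ALG := by
  intro U e
  have hm : ∀ i j : ℕ, |U ^ i * e ^ j| = |U| ^ i * |e| ^ j := by
    intro i j; rw [abs_mul, abs_pow, abs_pow]
  set a := |U| with ha
  set b := |e| with hb
  have ha0 : 0 ≤ a := abs_nonneg _
  have hb0 : 0 ≤ b := abs_nonneg _
  have e2 : e ^ 2 = b ^ 2 := (sq_abs e).symm
  have u2 : U ^ 2 = a ^ 2 := (sq_abs U).symm
  have e6 : e ^ 6 = b ^ 6 := by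
    calc e ^ 6 = (e ^ 2) ^ 3 := by ring
      _ = (b ^ 2) ^ 3 := by rw [e2]
      _ = b ^ 6 := by ring
  have u4 : U ^ 4 = a ^ 4 := by
    calc U ^ 4 = (U ^ 2) ^ 2 := by ring
      _ = (a ^ 2) ^ 2 := by rw [u2]
      _ = a ^ 4 := by ring
  have u8 : U ^ 8 = a ^ 8 := by
    calc U ^ 8 = (U ^ 2) ^ 4 := by ring
      _ = (a ^ 2) ^ 4 := by rw [u2]
      _ = a ^ 8 := by ring
  have e10 : e ^ 10 = b ^ 10 := by
    calc e ^ 10 = (e ^ 2) ^ 5 := by ring
      _ = (b ^ 2) ^ 5 := by rw [e2]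
      _ = b ^ 10 := by ring
  have n24 := abs_le.1 (hm 4 2).le
  have n33 := abs_le.1 (hm 3 3).le
  have n42 := abs_le.1 (hm 2 4).le
  have n51 := abs_le.1 (hm 1 5).le
  have n60 := abs_le.1 (hm 0 6).le
  have p41 := abs_le.1 (hm 4 1).le
  have p32 := abs_le.1 (hm 3 2).le
  have p23 := abs_le.1 (hm 2 3).le
  have p14 := abs_le.1 (hm 1 4).le
  have p05 := abs_le.1 (hm 0 5).le
  -- degree 6, first monomial a^4 b^2
  have m33 := mono59 a b ha0 hb0 3 1 2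
  have m24 := mono59 a b ha0 hb0 2 2 2
  have m15 := mono59 a b ha0 hb0 1 3 2
  -- degree 5, first monomial a^4 b
  have q32 := mono59 a b ha0 hb0 3 1 1
  have q23 := mono59 a b ha0 hb0 2 2 1
  have q14 := mono59 a b ha0 hb0 1 3 1
  -- degree 5, first monomial a^3 b^2
  have r23 := mono59 a b ha0 hb0 2 1 2
  have r14 := mono59 a b ha0 hb0 1 2 2
  -- degree 6, first monomial a^3 b^3
  have s24 := mono59 a b ha0 hb0 2 1 3
  have s15 := mono59 a b ha0 hb0 1 2 3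
  have z1 : 0 ≤ a ^ 4 * b ^ 2 := by positivity
  have z2 : 0 ≤ b ^ 6 := by positivity
  have z3 : 0 ≤ a ^ 4 * b ^ 1 := by positivity
  have z4 : 0 ≤ b ^ 5 := by positivity
  have z5 : 0 ≤ a ^ 3 * b ^ 2 := by positivity
  have z6 : 0 ≤ a ^ 3 * b ^ 3 := by positivity
  norm_num at m33 m24 m15 q32 q23 q14 r23 r14 s24 s15 n24 n33 n42 n51 n60 p41 p32 p23 p14 p05 z3
  have hG : |nG U e| ≤ 40 * (U ^ 4 * b + b ^ 5) := by
    have ex : nG U e = 5 * (U ^ 4 * e) + 10 * (U ^ 3 * e ^ 2) + 10 * (U ^ 2 * e ^ 3)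
        + 5 * (U * e ^ 4) + e ^ 5 := by unfold nG; ring
    rw [ex, u4, abs_le]
    rw [u4] at p41
    constructor <;> linarith [p41.1, p41.2, p32.1, p32.2, p23.1, p23.2, p14.1, p14.2, p05.1, p05.2]
  refine ⟨?_, hG, ?_, ?_, ?_, ?_⟩
  · have ex : nGG U e = 15 * (U ^ 4 * e ^ 2) + 20 * (U ^ 3 * e ^ 3) + 15 * (U ^ 2 * e ^ 4)
        + 6 * (U * e ^ 5) + e ^ 6 := by unfold nGG; ring
    rw [ex, abs_le]
    rw [e6, u4, e2]
    rw [u4, e2] at n24
    rw [e6] at n60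
    constructor <;> linarith [n24.1, n24.2, n33.1, n33.2, n42.1, n42.2, n51.1, n51.2]
  · rw [abs_mul]
    calc |nG U e| * b ≤ 40 * (U ^ 4 * b + b ^ 5) * b := mul_le_mul_of_nonneg_right hG hb0
      _ = 40 * (U ^ 4 * b ^ 2 + b ^ 6) := by ring
      _ = _ := by rw [e2, e6]
  · have ex : nG2 U e = 10 * (U ^ 3 * e ^ 2) + 10 * (U ^ 2 * e ^ 3)
        + 5 * (U * e ^ 4) + e ^ 5 := by unfold nG2; ring
    rw [ex, abs_le]
    have w1 : a ^ 3 * e ^ 2 = a ^ 3 * b ^ 2 := by rw [e2]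
    rw [w1]
    constructor <;> linarith [p32.1, p32.2, p23.1, p23.2, p14.1, p14.2, p05.1, p05.2]
  · have h1 : nG U e ^ 2 ≤ (40 * (U ^ 4 * b + b ^ 5)) ^ 2 := by
      rw [← sq_abs (nG U e)]
      exact pow_le_pow_left₀ (abs_nonneg _) hG 2
    rw [u4] at h1
    rw [u8, e2, e10]
    nlinarith [sq_nonneg (a ^ 4 * b - b ^ 5)]
  · have ex : nGG U e - 15 * U ^ 4 * e ^ 2 = 20 * (U ^ 3 * e ^ 3) + 15 * (U ^ 2 * e ^ 4)
        + 6 * (U * e ^ 5) + e ^ 6 := by unfold nGG; ring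
    rw [ex, abs_le]
    rw [e6]
    rw [e6] at n60
    constructor <;> linarith [n33.1, n33.2, n42.1, n42.2, n51.1, n51.2]

end Pool.Agent.Helper59.KV
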