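import Pool.Agent.Helper41.KV.GoalsC

/-!
# Packet AUXF: auxiliary functions
-/

set_option autoImplicit false

namespace Pool.Agent.Helper41.KV

open Real MeasureTheory

/-- the cut-off -/
noncomputable def auxfBump59 : ContDiffBump (0 : ℝ) where
  rIn := 1 / 2
  rOut := 3 / 4
  rIn_pos := by norm_num
  rIn_lt_rOut := by norm_num

lemma auxf59_isH (f : ℝ → ℝ) (hf : ∀ z : ℝ, -1 < z → ContDiffAt ℝ (⊤ : ℕ∞) f z) :
    IsH (fun z => auxfBump59 z * f z) := by
  have hsm : ContDiff ℝ (⊤ : ℕ∞) (fun z => auxfBump59 z * f z) := by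
    rw [contDiff_iff_contDiffAt]
    intro z
    by_cases hz : -1 < z
    · exact auxfBump59.contDiffAt.mul (hf z hz)
    · have hev : (fun z => auxfBump59 z * f z) =ᶠ[nhds z] fun _ => (0 : ℝ) := by
        have : Set.Iio (-(7 / 8 : ℝ)) ∈ nhds z := Iio_mem_nhds (by linarith)
        filter_upwards [this] with w hw
        have hw' : w < -(7 / 8) := hw
        have : auxfBump59 w = 0 := by
          apply auxfBump59.zero_of_le_dist
          rw [Real.dist_eq, sub_zero]
          have : auxfBump59.rOut = 3 / 4 := rfl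
          rw [this, abs_of_neg (by linarith)]
          linarith
        simp [this]
      exact contDiffAt_const.congr_of_eventuallyEq hev
  have hcs : HasCompactSupport (fun z => auxfBump59 z * f z) :=
    auxfBump59.hasCompactSupport.mul_right
  refine ⟨hsm, fun k => ?_⟩
  have h1 : Continuous (iteratedFDeriv ℝ k (fun z => auxfBump59 z * f z)) :=
    hsm.continuous_iteratedFDeriv (by exact_mod_cast le_top)
  have h2 : HasCompactSupport (iteratedFDeriv ℝ k (fun z => auxfBump59 z * f z)) :=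
    hcs.iteratedFDeriv k
  obtain ⟨C, hC⟩ := h1.bounded_above_of_compact_support h2
  refine ⟨C, fun z => ?_⟩
  rw [← Real.norm_eq_abs, ← norm_iteratedFDeriv_eq_norm_iteratedDeriv]
  exact hC z

lemma auxf59_eq (f : ℝ → ℝ) (z : ℝ) (hz : |z| ≤ 1 / 2) : auxfBump59 z * f z = f z := by
  have : auxfBump59 z = 1 := by
    apply auxfBump59.one_of_mem_closedBall
    rw [Metric.mem_closedBall, Real.dist_eq, sub_zero]
    exact hz
  rw [this, one_mul]

lemma auxf59_rpow (γ : ℝ) (z : ℝ) (hz : -1 < z) :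
    ContDiffAt ℝ (⊤ : ℕ∞) (fun z : ℝ => (1 + z) ^ γ) z :=
  (contDiffAt_const.add contDiffAt_id).rpow_const_of_ne (by simp only [id]; linarith)

lemma auxf59_log (z : ℝ) (hz : -1 < z) :
    ContDiffAt ℝ (⊤ : ℕ∞) (fun z : ℝ => Real.log (1 + z)) z :=
  (contDiffAt_const.add contDiffAt_id).log (by simp only [id]; linarith)

theorem thm_AUXF : S_AUXF := by
  intro α
  refine ⟨fun z => auxfBump59 z * (1 + z) ^ (α - 1/2), fun z => auxfBump59 z * (1 + z) ^ (-3 : ℝ),
    fun z => auxfBump59 z * (1 + z) ^ (2 * α), fun z => auxfBump59 z * Real.log (1 + z), ?_⟩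
  refine { H0 := ?_, H1 := ?_, H2 := ?_, H3 := ?_, e0 := ?_, e1 := ?_, e2 := ?_, e3 := ?_ }
  · exact auxf59_isH _ (auxf59_rpow _)
  · exact auxf59_isH _ (auxf59_rpow _)
  · exact auxf59_isH _ (auxf59_rpow _)
  · exact auxf59_isH _ auxf59_log
  · intro z hz
    exact auxf59_eq (fun z => (1 + z) ^ (α - 1/2)) z hz
  · intro z hz
    exact auxf59_eq (fun z => (1 + z) ^ (-3 : ℝ)) z hz
  · intro z hz
    exact auxf59_eq (fun z => (1 + z) ^ (2 * α)) z hz
  · intro z hz
    exact auxf59_eq (fun z => Real.log (1 + z)) z hz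

end Pool.Agent.Helper41.KV
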