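import Pool.Agent.Helper41.KV.GoalsD

/-!
# Packet FHB: bounds of the right field in inner variables
-/

set_option autoImplicit false

namespace Pool.Agent.Helper41.KV

open Real MeasureTheory Pool.Agent.Helper33.KV

namespace FHBh59

lemma smooth_iter (φ : ℝ → ℝ) (h : ContDiffOn ℝ (⊤ : ℕ∞) φ (Set.Ioi 0)) (k : ℕ) :
    ContDiffOn ℝ (⊤ : ℕ∞) (iteratedDeriv k φ) (Set.Ioi 0) := by
  induction k with
  | zero => rw [iteratedDeriv_zero]; exact h
  | succ k ih =>
    rw [iteratedDeriv_succ]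
    exact ih.deriv_of_isOpen isOpen_Ioi (by exact_mod_cast le_top)

lemma hasDeriv_iter (φ : ℝ → ℝ) (h : ContDiffOn ℝ (⊤ : ℕ∞) φ (Set.Ioi 0)) (k : ℕ) (x : ℝ)
    (hx : 0 < x) : HasDerivAt (iteratedDeriv k φ) (iteratedDeriv (k + 1) φ x) x := by
  rw [iteratedDeriv_succ]
  have h1 := (smooth_iter φ h k).contDiffAt (Ioi_mem_nhds hx)
  exact (h1.differentiableAt (by simp)).hasDerivAt

/-- `G_k = ∂_x^k F`. -/
noncomputable def G (c : ℕ → ℝ → ℝ) (n k : ℕ) (t x : ℝ) : ℝ :=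
  ∑ i ∈ Finset.range (n + 1), t ^ i * iteratedDeriv k (c i) x

/-- `H_k = ∂_x^k ∂_t F`. -/
noncomputable def H (c : ℕ → ℝ → ℝ) (n k : ℕ) (t x : ℝ) : ℝ :=
  ∑ i ∈ Finset.range (n + 1), ((i : ℝ) * t ^ (i - 1)) * iteratedDeriv k (c i) x

lemma hG (c : ℕ → ℝ → ℝ) (hc : ∀ i, ContDiffOn ℝ (⊤ : ℕ∞) (c i) (Set.Ioi 0)) (n k : ℕ)
    (t x : ℝ) (hx : 0 < x) : HasDerivAt (G c n k t) (G c n (k + 1) t x) x := by
  unfold G
  apply HasDerivAt.fun_sum
  intro i _
  exact (hasDeriv_iter (c i) (hc i) k x hx).const_mul _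

lemma hH (c : ℕ → ℝ → ℝ) (hc : ∀ i, ContDiffOn ℝ (⊤ : ℕ∞) (c i) (Set.Ioi 0)) (n k : ℕ)
    (t x : ℝ) (hx : 0 < x) : HasDerivAt (H c n k t) (H c n (k + 1) t x) x := by
  unfold H
  apply HasDerivAt.fun_sum
  intro i _
  exact (hasDeriv_iter (c i) (hc i) k x hx).const_mul _

lemma aff (s l y : ℝ) : HasDerivAt (fun y' : ℝ => s + l * y') l y := by
  simpa using ((hasDerivAt_id y).const_mul l).const_add s

lemma iter_inner (c : ℕ → ℝ → ℝ) (hc : ∀ i, ContDiffOn ℝ (⊤ : ℕ∞) (c i) (Set.Ioi 0)) (n : ℕ)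
    (t s l a : ℝ) (k : ℕ) : ∀ y : ℝ, 0 < s + l * y →
    iteratedDeriv k (fun y' => a * G c n 0 t (s + l * y')) y
      = a * l ^ k * G c n k t (s + l * y) := by
  induction k with
  | zero => intro y _; simp
  | succ k ih =>
    intro y hy
    rw [iteratedDeriv_succ]
    have hopen : IsOpen {y : ℝ | 0 < s + l * y} := isOpen_lt continuous_const (by fun_prop)
    have hev : iteratedDeriv k (fun y' => a * G c n 0 t (s + l * y'))
        =ᶠ[nhds y] fun y' => a * l ^ k * G c n k t (s + l * y') := by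
      filter_upwards [hopen.mem_nhds hy] with z hz
      exact ih z hz
    rw [hev.deriv_eq]
    have h1 := ((hG c hc n k t (s + l * y) hy).comp y (aff s l y)).const_mul (a * l ^ k)
    have h2 : HasDerivAt (fun y' => a * l ^ k * G c n k t (s + l * y'))
        (a * l ^ k * (G c n (k + 1) t (s + l * y) * l)) y := h1
    rw [h2.deriv]
    ring

/-- bounds of `G_k`, `H_k` -/
lemma bounds (γ : ℝ) (c : ℕ → ℝ → ℝ) (n : ℕ)
    (hb : ∀ i k : ℕ, ∃ C : ℝ, ∀ x : ℝ, 0 < x →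
      |iteratedDeriv k (c i) x| ≤ C * x ^ (γ - 3 * (i : ℝ) - (k : ℝ))) :
    ∃ A : ℝ, 0 ≤ A ∧ ∀ k : ℕ, k < 8 → ∀ t x : ℝ, 0 < t → 0 < x → t ≤ 8 * x ^ 3 →
      |G c n k t x| ≤ A * x ^ (γ - (k : ℝ)) ∧ |H c n k t x| ≤ A * x ^ (γ - ((k + 3 : ℕ) : ℝ)) := by
  choose C hC using hb
  refine ⟨∑ k ∈ Finset.range 8, ∑ i ∈ Finset.range (n + 1), ((i : ℝ) + 1) * 8 ^ i * |C i k|,
    by positivity, ?_⟩
  intro k hk t x ht hx htx
  have hA : (∑ i ∈ Finset.range (n + 1), ((i : ℝ) + 1) * 8 ^ i * |C i k|)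
      ≤ ∑ k ∈ Finset.range 8, ∑ i ∈ Finset.range (n + 1), ((i : ℝ) + 1) * 8 ^ i * |C i k| :=
    Finset.single_le_sum (f := fun k => ∑ i ∈ Finset.range (n + 1), ((i : ℝ) + 1) * 8 ^ i * |C i k|)
      (fun k _ => Finset.sum_nonneg fun i _ => by positivity) (Finset.mem_range.2 hk)
  have hpow : ∀ j : ℕ, t ^ j ≤ 8 ^ j * x ^ ((3 : ℝ) * j) := by
    intro j
    calc t ^ j ≤ (8 * x ^ 3) ^ j := pow_le_pow_left₀ ht.le htx j
      _ = 8 ^ j * x ^ ((3 : ℝ) * j) := by
        rw [mul_pow, ← pow_mul]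
        congr 1
        rw [show (3 : ℝ) * (j : ℝ) = ((3 * j : ℕ) : ℝ) by push_cast; ring, Real.rpow_natCast]
  have hCi : ∀ i, |iteratedDeriv k (c i) x| ≤ |C i k| * x ^ (γ - 3 * (i : ℝ) - (k : ℝ)) := by
    intro i
    refine (hC i k x hx).trans ?_
    exact mul_le_mul_of_nonneg_right (le_abs_self _) (Real.rpow_nonneg hx.le _)
  constructor
  · unfold G
    calc |∑ i ∈ Finset.range (n + 1), t ^ i * iteratedDeriv k (c i) x|
        ≤ ∑ i ∈ Finset.range (n + 1), |t ^ i * iteratedDeriv k (c i) x| :=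
          Finset.abs_sum_le_sum_abs _ _
      _ ≤ ∑ i ∈ Finset.range (n + 1), (((i : ℝ) + 1) * 8 ^ i * |C i k|) * x ^ (γ - (k : ℝ)) := by
          refine Finset.sum_le_sum fun i _ => ?_
          rw [abs_mul, abs_of_pos (pow_pos ht i)]
          calc t ^ i * |iteratedDeriv k (c i) x|
              ≤ (8 ^ i * x ^ ((3 : ℝ) * i)) * (|C i k| * x ^ (γ - 3 * (i : ℝ) - (k : ℝ))) :=
                mul_le_mul (hpow i) (hCi i) (abs_nonneg _) (by positivity)
            _ = 8 ^ i * |C i k| * (x ^ ((3 : ℝ) * i) * x ^ (γ - 3 * (i : ℝ) - (k : ℝ))) := by ring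
            _ = 8 ^ i * |C i k| * x ^ (γ - (k : ℝ)) := by
                rw [← Real.rpow_add hx]; congr 2; ring
            _ = 1 * (8 ^ i * |C i k| * x ^ (γ - (k : ℝ))) := (one_mul _).symm
            _ ≤ ((i : ℝ) + 1) * (8 ^ i * |C i k| * x ^ (γ - (k : ℝ))) :=
                mul_le_mul_of_nonneg_right (by linarith [(Nat.cast_nonneg i : (0 : ℝ) ≤ i)])
                  (by positivity)
            _ = _ := by ring
      _ = (∑ i ∈ Finset.range (n + 1), ((i : ℝ) + 1) * 8 ^ i * |C i k|) * x ^ (γ - (k : ℝ)) := by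
          rw [Finset.sum_mul]
      _ ≤ _ := mul_le_mul_of_nonneg_right hA (Real.rpow_nonneg hx.le _)
  · unfold H
    calc |∑ i ∈ Finset.range (n + 1), ((i : ℝ) * t ^ (i - 1)) * iteratedDeriv k (c i) x|
        ≤ ∑ i ∈ Finset.range (n + 1), |((i : ℝ) * t ^ (i - 1)) * iteratedDeriv k (c i) x| :=
          Finset.abs_sum_le_sum_abs _ _
      _ ≤ ∑ i ∈ Finset.range (n + 1), (((i : ℝ) + 1) * 8 ^ i * |C i k|)
            * x ^ (γ - ((k + 3 : ℕ) : ℝ)) := by
          refine Finset.sum_le_sum fun i _ => ?_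
          rw [abs_mul, abs_of_nonneg (by positivity : (0 : ℝ) ≤ (i : ℝ) * t ^ (i - 1))]
          rcases Nat.eq_zero_or_pos i with hi | hi
          · subst hi
            simp only [Nat.cast_zero, zero_mul]
            positivity
          · obtain ⟨j, rfl⟩ : ∃ j, i = j + 1 := ⟨i - 1, by omega⟩
            simp only [Nat.add_sub_cancel]
            calc ((j + 1 : ℕ) : ℝ) * t ^ j * |iteratedDeriv k (c (j + 1)) x|
                ≤ ((j + 1 : ℕ) : ℝ) * (8 ^ j * x ^ ((3 : ℝ) * j))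
                    * (|C (j + 1) k| * x ^ (γ - 3 * ((j + 1 : ℕ) : ℝ) - (k : ℝ))) := by
                  apply mul_le_mul _ (hCi _) (abs_nonneg _) (by positivity)
                  exact mul_le_mul_of_nonneg_left (hpow j) (by positivity)
              _ = ((j + 1 : ℕ) : ℝ) * 8 ^ j * |C (j + 1) k|
                    * (x ^ ((3 : ℝ) * j) * x ^ (γ - 3 * ((j + 1 : ℕ) : ℝ) - (k : ℝ))) := by ring
              _ = ((j + 1 : ℕ) : ℝ) * 8 ^ j * |C (j + 1) k| * x ^ (γ - ((k + 3 : ℕ) : ℝ)) := by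
                  rw [← Real.rpow_add hx]; congr 2; push_cast; ring
              _ ≤ (((j + 1 : ℕ) : ℝ) + 1) * 8 ^ (j + 1) * |C (j + 1) k|
                    * x ^ (γ - ((k + 3 : ℕ) : ℝ)) := by
                  apply mul_le_mul_of_nonneg_right _ (Real.rpow_nonneg hx.le _)
                  apply mul_le_mul_of_nonneg_right _ (abs_nonneg _)
                  apply mul_le_mul (by linarith) _ (by positivity) (by positivity)
                  exact pow_le_pow_right₀ (by norm_num) (by omega)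
      _ = (∑ i ∈ Finset.range (n + 1), ((i : ℝ) + 1) * 8 ^ i * |C i k|)
            * x ^ (γ - ((k + 3 : ℕ) : ℝ)) := by rw [Finset.sum_mul]
      _ ≤ _ := mul_le_mul_of_nonneg_right hA (Real.rpow_nonneg hx.le _)

/-- scaling -/
lemma mx (α s l r x : ℝ) (h0 : 0 < α) (h1 : α < 1) (hs : 0 < s) (hl : l = s ^ (2 * α + 1))
    (hr : r = s ^ (2 * α)) (hx : s / 2 ≤ x) (k : ℕ) :
    Real.sqrt l * l ^ k * x ^ ((α / 2 - 1 / 2) - (k : ℝ)) ≤ 2 ^ (k + 1) * r ^ ((k : ℝ) + 3 / 4) := by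
  have hk : (0 : ℝ) ≤ k := Nat.cast_nonneg k
  have hx1 : x ^ ((α / 2 - 1 / 2) - (k : ℝ)) ≤ (s / 2) ^ ((α / 2 - 1 / 2) - (k : ℝ)) :=
    Real.rpow_le_rpow_of_nonpos (by positivity) hx (by linarith)
  have hx2 : (s / 2) ^ ((α / 2 - 1 / 2) - (k : ℝ))
      = s ^ ((α / 2 - 1 / 2) - (k : ℝ)) * 2 ^ ((k : ℝ) - (α / 2 - 1 / 2)) := by
    rw [Real.div_rpow hs.le (by norm_num), div_eq_mul_inv, ← Real.rpow_neg (by norm_num)]
    congr 2
    ring
  have hx3 : (2 : ℝ) ^ ((k : ℝ) - (α / 2 - 1 / 2)) ≤ 2 ^ (k + 1) := by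
    rw [← Real.rpow_natCast]
    apply Real.rpow_le_rpow_of_exponent_le (by norm_num)
    push_cast
    linarith
  have hl1 : Real.sqrt l = s ^ ((2 * α + 1) * (1 / 2)) := by
    rw [hl, Real.sqrt_eq_rpow, ← Real.rpow_mul hs.le]
  have hl2 : l ^ k = s ^ ((2 * α + 1) * k) := by
    rw [hl, ← Real.rpow_natCast, ← Real.rpow_mul hs.le]
  have hr1 : r ^ ((k : ℝ) + 3 / 4) = s ^ ((2 * α) * ((k : ℝ) + 3 / 4)) := by
    rw [hr, ← Real.rpow_mul hs.le]
  rw [hr1, hl1, hl2]
  calc s ^ ((2 * α + 1) * (1 / 2)) * s ^ ((2 * α + 1) * (k : ℝ)) * x ^ ((α / 2 - 1 / 2) - (k : ℝ))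
      ≤ s ^ ((2 * α + 1) * (1 / 2)) * s ^ ((2 * α + 1) * (k : ℝ))
        * (s ^ ((α / 2 - 1 / 2) - (k : ℝ)) * 2 ^ ((k : ℝ) - (α / 2 - 1 / 2))) := by
        rw [← hx2]
        exact mul_le_mul_of_nonneg_left hx1 (by positivity)
    _ = (s ^ ((2 * α + 1) * (1 / 2)) * s ^ ((2 * α + 1) * (k : ℝ))
        * s ^ ((α / 2 - 1 / 2) - (k : ℝ))) * 2 ^ ((k : ℝ) - (α / 2 - 1 / 2)) := by ring
    _ = s ^ ((2 * α) * ((k : ℝ) + 3 / 4)) * 2 ^ ((k : ℝ) - (α / 2 - 1 / 2)) := by
        rw [← Real.rpow_add hs, ← Real.rpow_add hs]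
        congr 2
        ring
    _ ≤ s ^ ((2 * α) * ((k : ℝ) + 3 / 4)) * 2 ^ (k + 1) :=
        mul_le_mul_of_nonneg_left hx3 (by positivity)
    _ = _ := by ring


/-- `λ^3 ∂_t F̂` -/
noncomputable def E (α s l r : ℝ) (c : ℕ → ℝ → ℝ) (n : ℕ) (t y : ℝ) : ℝ :=
  (2 * α + 1) * r / 2 * (Real.sqrt l * G c n 0 t (s + l * y))
    + Real.sqrt l * l ^ 3 * H c n 0 t (s + l * y)
    + Real.sqrt l * l * (G c n 1 t (s + l * y) * (1 + (2 * α + 1) * r * y))

/-- `∂_y (λ^3 ∂_t F̂)` -/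
noncomputable def E1 (α s l r : ℝ) (c : ℕ → ℝ → ℝ) (n : ℕ) (t y : ℝ) : ℝ :=
  (2 * α + 1) * r / 2 * (Real.sqrt l * (G c n 1 t (s + l * y) * l))
    + Real.sqrt l * l ^ 3 * (H c n 1 t (s + l * y) * l)
    + Real.sqrt l * l * ((G c n 2 t (s + l * y) * l) * (1 + (2 * α + 1) * r * y)
      + G c n 1 t (s + l * y) * ((2 * α + 1) * r))

lemma hE (α s l r : ℝ) (c : ℕ → ℝ → ℝ) (hc : ∀ i, ContDiffOn ℝ (⊤ : ℕ∞) (c i) (Set.Ioi 0))
    (n : ℕ) (t y : ℝ) (hx : 0 < s + l * y) :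
    HasDerivAt (E α s l r c n t) (E1 α s l r c n t y) y := by
  have g0' := (hG c hc n 0 t (s + l * y) hx).comp y (aff s l y)
  have g1' := (hG c hc n 1 t (s + l * y) hx).comp y (aff s l y)
  have k0' := (hH c hc n 0 t (s + l * y) hx).comp y (aff s l y)
  have g0 : HasDerivAt (fun y => G c n 0 t (s + l * y)) (G c n 1 t (s + l * y) * l) y := g0'
  have g1 : HasDerivAt (fun y => G c n 1 t (s + l * y)) (G c n 2 t (s + l * y) * l) y := g1'
  have k0 : HasDerivAt (fun y => H c n 0 t (s + l * y)) (H c n 1 t (s + l * y) * l) y := k0'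
  have a1 : HasDerivAt (fun y => 1 + (2 * α + 1) * r * y) ((2 * α + 1) * r) y :=
    aff 1 ((2 * α + 1) * r) y
  have := ((((g0.const_mul (Real.sqrt l)).const_mul ((2 * α + 1) * r / 2))).add
    (k0.const_mul (Real.sqrt l * l ^ 3))).add ((g1.mul a1).const_mul (Real.sqrt l * l))
  exact this

end FHBh59

open FHBh59 in
theorem thm_FHB (hF : S_FS) (hC : S_CURV) : S_FHB := by
  intro α f0 n h0 h1 hf
  obtain ⟨hS, -⟩ := hF α f0 h0 h1 hf n
  obtain ⟨hcurv, -⟩ := hC α h0 h1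
  set c : ℕ → ℝ → ℝ := fun i => (Fs f0 n).coeff i with hcdef
  have hc : ∀ i, ContDiffOn ℝ (⊤ : ℕ∞) (c i) (Set.Ioi 0) := fun i => (hS i).1
  obtain ⟨A, hA0, hA⟩ := bounds (α / 2 - 1 / 2) c n (fun i k => by
    obtain ⟨C, hC⟩ := (hS i).2.2.2 k
    exact ⟨C, fun x hx => hC x hx⟩)
  have hFR : ∀ τ z, FR f0 n τ z = G c n 0 τ z := by
    intro τ z
    unfold FR G
    simp only [iteratedDeriv_zero]
    rfl
  refine ⟨2560 * A, fun t y ht hs1 hx => ?_⟩
  obtain ⟨hs, hl, hr, -, hst, -, ds, dl, -, -⟩ := hcurv t ht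
  have hld : lam α t = sig α t ^ (2 * α + 1) := rfl
  have hrd : rho α t = sig α t ^ (2 * α) := rfl
  simp only [hFR]
  set s := sig α t with hsdef
  set l := lam α t with hldef
  set r := rho α t with hrdef
  have hr1 : r ≤ 1 := by
    rw [hrd]; exact Real.rpow_le_one hs.le hs1 (by linarith)
  set x := s + l * y with hxdef
  have hx0 : 0 < x := by linarith
  have htx : t ≤ 8 * x ^ 3 := by
    have e1 : s ^ (4 * α + 3) ≤ s ^ (3 : ℝ) :=
      Real.rpow_le_rpow_of_exponent_ge hs hs1 (by linarith)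
    have e2 : s ^ (3 : ℝ) = s ^ 3 := by
      rw [← Real.rpow_natCast]; norm_num
    have e3 : s ^ 3 ≤ (2 * x) ^ 3 := pow_le_pow_left₀ hs.le (by linarith) 3
    have e4 : t ≤ (4 * α + 3) * t := by nlinarith
    calc t ≤ (4 * α + 3) * t := e4
      _ = s ^ (4 * α + 3) := hst.symm
      _ ≤ s ^ 3 := by rw [← e2]; exact e1
      _ ≤ (2 * x) ^ 3 := e3
      _ = 8 * x ^ 3 := by ring
  have hyx : |y| * l ≤ x := by
    have : |y| * l = |l * y| := by rw [abs_mul, abs_of_pos hl]; ring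
    rw [this, abs_le]
    constructor <;> linarith
  have hmx : ∀ k : ℕ, k < 8 → Real.sqrt l * l ^ k * x ^ ((α / 2 - 1 / 2) - (k : ℝ))
      ≤ 256 * r ^ ((k : ℝ) + 3 / 4) := by
    intro k hk
    refine (mx α s l r x h0 h1 hs hld hrd hx k).trans ?_
    apply mul_le_mul_of_nonneg_right _ (by positivity)
    calc (2 : ℝ) ^ (k + 1) ≤ 2 ^ 8 := pow_le_pow_right₀ (by norm_num) (by omega)
      _ = 256 := by norm_num
  have hpk : ∀ (a b : ℝ), b ≤ a → r ^ a ≤ r ^ b := fun a b hab =>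
    Real.rpow_le_rpow_of_exponent_ge hr hr1 hab
  have bG : ∀ k : ℕ, k < 8 → Real.sqrt l * l ^ k * |G c n k t x|
      ≤ 256 * A * r ^ ((k : ℝ) + 3 / 4) := by
    intro k hk
    calc Real.sqrt l * l ^ k * |G c n k t x|
        ≤ Real.sqrt l * l ^ k * (A * x ^ ((α / 2 - 1 / 2) - (k : ℝ))) :=
          mul_le_mul_of_nonneg_left (hA k hk t x ht hx0 htx).1 (by positivity)
      _ = A * (Real.sqrt l * l ^ k * x ^ ((α / 2 - 1 / 2) - (k : ℝ))) := by ring
      _ ≤ A * (256 * r ^ ((k : ℝ) + 3 / 4)) := mul_le_mul_of_nonneg_left (hmx k hk) hA0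
      _ = _ := by ring
  have bH : ∀ k : ℕ, k < 5 → Real.sqrt l * l ^ (k + 3) * |H c n k t x|
      ≤ 256 * A * r ^ (((k + 3 : ℕ) : ℝ) + 3 / 4) := by
    intro k hk
    calc Real.sqrt l * l ^ (k + 3) * |H c n k t x|
        ≤ Real.sqrt l * l ^ (k + 3) * (A * x ^ ((α / 2 - 1 / 2) - ((k + 3 : ℕ) : ℝ))) :=
          mul_le_mul_of_nonneg_left (hA k (by omega) t x ht hx0 htx).2 (by positivity)
      _ = A * (Real.sqrt l * l ^ (k + 3) * x ^ ((α / 2 - 1 / 2) - ((k + 3 : ℕ) : ℝ))) := by ring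
      _ ≤ A * (256 * r ^ (((k + 3 : ℕ) : ℝ) + 3 / 4)) :=
          mul_le_mul_of_nonneg_left (hmx (k + 3) (by omega)) hA0
      _ = _ := by ring
  have bY : ∀ k : ℕ, k < 7 → |y| * (Real.sqrt l * l ^ (k + 1) * |G c n (k + 1) t x|)
      ≤ 256 * A * r ^ ((k : ℝ) + 3 / 4) := by
    intro k hk
    have e1 : x * x ^ ((α / 2 - 1 / 2) - ((k + 1 : ℕ) : ℝ)) = x ^ ((α / 2 - 1 / 2) - (k : ℝ)) := by
      nth_rewrite 1 [← Real.rpow_one x]
      rw [← Real.rpow_add hx0]
      congr 1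
      push_cast
      ring
    calc |y| * (Real.sqrt l * l ^ (k + 1) * |G c n (k + 1) t x|)
        = (|y| * l) * (Real.sqrt l * l ^ k * |G c n (k + 1) t x|) := by ring
      _ ≤ x * (Real.sqrt l * l ^ k * (A * x ^ ((α / 2 - 1 / 2) - ((k + 1 : ℕ) : ℝ)))) := by
          apply mul_le_mul hyx _ (by positivity) hx0.le
          exact mul_le_mul_of_nonneg_left (hA (k + 1) (by omega) t x ht hx0 htx).1 (by positivity)
      _ = A * (Real.sqrt l * l ^ k * (x * x ^ ((α / 2 - 1 / 2) - ((k + 1 : ℕ) : ℝ)))) := by ring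
      _ = A * (Real.sqrt l * l ^ k * x ^ ((α / 2 - 1 / 2) - (k : ℝ))) := by rw [e1]
      _ ≤ A * (256 * r ^ ((k : ℝ) + 3 / 4)) :=
          mul_le_mul_of_nonneg_left (hmx k (by omega)) hA0
      _ = _ := by ring
  have hCA : 256 * A ≤ 2560 * A := by linarith
  -- the time derivative
  have hT : ∀ y', 0 < s + l * y' → HasDerivAt (fun τ => Real.sqrt (lam α τ) *
      G c n 0 τ (sig α τ + lam α τ * y')) (E α s l r c n t y' / l ^ 3) t := by
    intro y' hy'
    have h2 : ∀ i, HasDerivAt (fun τ => τ ^ i * c i (sig α τ + lam α τ * y'))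
        (((i : ℝ) * t ^ (i - 1)) * c i (s + l * y') + t ^ i * (iteratedDeriv 1 (c i) (s + l * y')
          * (1 / l ^ 2 + (2 * α + 1) * r / l ^ 2 * y'))) t := by
      intro i
      have q1 := hasDerivAt_pow i t
      have q2 : HasDerivAt (c i) (iteratedDeriv 1 (c i) (s + l * y')) (s + l * y') := by
        have := hasDeriv_iter (c i) (hc i) 0 (s + l * y') hy'
        rwa [iteratedDeriv_zero] at this
      have q3 : HasDerivAt (fun τ => sig α τ + lam α τ * y')
          (1 / l ^ 2 + (2 * α + 1) * r / l ^ 2 * y') t := ds.add (dl.mul_const y')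
      have q4 : HasDerivAt (fun τ => c i (sig α τ + lam α τ * y'))
          (iteratedDeriv 1 (c i) (s + l * y') * (1 / l ^ 2 + (2 * α + 1) * r / l ^ 2 * y')) t :=
        HasDerivAt.comp t q2 q3
      exact q1.mul q4
    have h3 : HasDerivAt (fun τ => G c n 0 τ (sig α τ + lam α τ * y'))
        (H c n 0 t (s + l * y') + G c n 1 t (s + l * y')
          * (1 / l ^ 2 + (2 * α + 1) * r / l ^ 2 * y')) t := by
      have h4 := HasDerivAt.fun_sum (u := Finset.range (n + 1)) (fun i _ => h2 i)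
      have e1 : (fun τ => G c n 0 τ (sig α τ + lam α τ * y'))
          = fun τ => ∑ i ∈ Finset.range (n + 1), τ ^ i * c i (sig α τ + lam α τ * y') := by
        funext τ
        unfold G
        simp only [iteratedDeriv_zero]
      have e2 : H c n 0 t (s + l * y') + G c n 1 t (s + l * y')
          * (1 / l ^ 2 + (2 * α + 1) * r / l ^ 2 * y')
          = ∑ i ∈ Finset.range (n + 1), (((i : ℝ) * t ^ (i - 1)) * c i (s + l * y')
            + t ^ i * (iteratedDeriv 1 (c i) (s + l * y')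
              * (1 / l ^ 2 + (2 * α + 1) * r / l ^ 2 * y'))) := by
        unfold G H
        rw [Finset.sum_add_distrib, Finset.sum_mul]
        simp only [iteratedDeriv_zero, mul_assoc]
      rw [e1, e2]
      exact h4
    have h5 : HasDerivAt (fun τ => Real.sqrt (lam α τ))
        ((2 * α + 1) * r / l ^ 2 / (2 * Real.sqrt l)) t := dl.sqrt hl.ne'
    have h6 := h5.mul h3
    have hsq : Real.sqrt l ^ 2 = l := Real.sq_sqrt hl.le
    have hsp : 0 < Real.sqrt l := Real.sqrt_pos.2 hl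
    have e3 : (2 * α + 1) * r / l ^ 2 / (2 * Real.sqrt l) * G c n 0 t (s + l * y')
        + Real.sqrt l * (H c n 0 t (s + l * y') + G c n 1 t (s + l * y')
          * (1 / l ^ 2 + (2 * α + 1) * r / l ^ 2 * y')) = E α s l r c n t y' / l ^ 3 := by
      unfold E
      rw [← hsq, Real.sqrt_sq hsp.le]
      set q := Real.sqrt l
      field_simp
      ring
    rw [← e3]
    exact h6
  have hl3 : 0 < l ^ 3 := by positivity
  -- bounds of `E`, `E1`
  have hα3 : 2 * α + 1 ≤ 3 := by linarith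
  have hα0 : 0 ≤ 2 * α + 1 := by linarith
  have hq0 : 0 < Real.sqrt l := Real.sqrt_pos.2 hl
  set B := 256 * A * r ^ ((7 : ℝ) / 4) with hB
  have hB0 : 0 ≤ B := by positivity
  have rr : r * r ^ ((3 : ℝ) / 4) = r ^ ((7 : ℝ) / 4) := by
    nth_rewrite 1 [← Real.rpow_one r]
    rw [← Real.rpow_add hr]
    norm_num
  have t0 : r * (Real.sqrt l * |G c n 0 t x|) ≤ B := by
    have := bG 0 (by norm_num)
    simp only [pow_zero, mul_one, Nat.cast_zero, zero_add] at this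
    calc r * (Real.sqrt l * |G c n 0 t x|) ≤ r * (256 * A * r ^ ((3 : ℝ) / 4)) :=
          mul_le_mul_of_nonneg_left this hr.le
      _ = 256 * A * (r * r ^ ((3 : ℝ) / 4)) := by ring
      _ = B := by rw [rr]
  have t1 : Real.sqrt l * l * |G c n 1 t x| ≤ B := by
    have := bG 1 (by norm_num)
    simp only [pow_one, Nat.cast_one] at this
    calc _ ≤ _ := this
      _ = B := by rw [hB]; norm_num
  have t2 : Real.sqrt l * l ^ 2 * |G c n 2 t x| ≤ B := by
    have := bG 2 (by norm_num)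
    refine this.trans ?_
    exact mul_le_mul_of_nonneg_left (hpk _ _ (by norm_num)) (by positivity)
  have t3 : Real.sqrt l * l ^ 3 * |H c n 0 t x| ≤ B := by
    have := bH 0 (by norm_num)
    refine this.trans ?_
    exact mul_le_mul_of_nonneg_left (hpk _ _ (by norm_num)) (by positivity)
  have t4 : Real.sqrt l * l ^ 4 * |H c n 1 t x| ≤ B := by
    have := bH 1 (by norm_num)
    refine this.trans ?_
    exact mul_le_mul_of_nonneg_left (hpk _ _ (by norm_num)) (by positivity)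
  have t5 : r * (|y| * (Real.sqrt l * l * |G c n 1 t x|)) ≤ B := by
    have := bY 0 (by norm_num)
    simp only [zero_add, pow_one, Nat.cast_zero] at this
    calc r * (|y| * (Real.sqrt l * l * |G c n 1 t x|)) ≤ r * (256 * A * r ^ ((3 : ℝ) / 4)) :=
          mul_le_mul_of_nonneg_left this hr.le
      _ = 256 * A * (r * r ^ ((3 : ℝ) / 4)) := by ring
      _ = B := by rw [rr]
  have t6 : |y| * (Real.sqrt l * l ^ 2 * |G c n 2 t x|) ≤ B := by
    have := bY 1 (by norm_num)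
    simp only [Nat.cast_one] at this
    calc _ ≤ _ := this
      _ = B := by rw [hB]; norm_num
  have t6' : r * (|y| * (Real.sqrt l * l ^ 2 * |G c n 2 t x|)) ≤ B := by
    calc _ ≤ 1 * (|y| * (Real.sqrt l * l ^ 2 * |G c n 2 t x|)) :=
          mul_le_mul_of_nonneg_right hr1 (by positivity)
      _ = _ := one_mul _
      _ ≤ B := t6
  have t1' : r * (Real.sqrt l * l * |G c n 1 t x|) ≤ B := by
    calc _ ≤ 1 * (Real.sqrt l * l * |G c n 1 t x|) :=
          mul_le_mul_of_nonneg_right hr1 (by positivity)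
      _ = _ := one_mul _
      _ ≤ B := t1
  have habs3 : ∀ a b d : ℝ, |a + b + d| ≤ |a| + |b| + |d| := fun a b d =>
    (abs_add_le _ _).trans (add_le_add (abs_add_le _ _) le_rfl)
  have hEb : |E α s l r c n t y| ≤ 10 * B := by
    unfold E
    refine (habs3 _ _ _).trans ?_
    have u1 : |(2 * α + 1) * r / 2 * (Real.sqrt l * G c n 0 t (s + l * y))|
        = (2 * α + 1) / 2 * (r * (Real.sqrt l * |G c n 0 t x|)) := by
      rw [abs_mul, abs_mul, abs_of_nonneg hq0.le,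
        abs_of_nonneg (by positivity : 0 ≤ (2 * α + 1) * r / 2)]
      ring
    have u2 : |Real.sqrt l * l ^ 3 * H c n 0 t (s + l * y)|
        = Real.sqrt l * l ^ 3 * |H c n 0 t x| := by
      rw [abs_mul, abs_of_nonneg (by positivity : 0 ≤ Real.sqrt l * l ^ 3)]
    have u3 : |Real.sqrt l * l * (G c n 1 t (s + l * y) * (1 + (2 * α + 1) * r * y))|
        ≤ Real.sqrt l * l * |G c n 1 t x|
          + (2 * α + 1) * (r * (|y| * (Real.sqrt l * l * |G c n 1 t x|))) := by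
      rw [abs_mul, abs_of_nonneg (by positivity : 0 ≤ Real.sqrt l * l), abs_mul]
      have : |1 + (2 * α + 1) * r * y| ≤ 1 + (2 * α + 1) * r * |y| := by
        refine (abs_add_le _ _).trans ?_
        rw [abs_one, abs_mul, abs_of_nonneg (by positivity : 0 ≤ (2 * α + 1) * r)]
      calc Real.sqrt l * l * (|G c n 1 t (s + l * y)| * |1 + (2 * α + 1) * r * y|)
          ≤ Real.sqrt l * l * (|G c n 1 t x| * (1 + (2 * α + 1) * r * |y|)) := by
            apply mul_le_mul_of_nonneg_left _ (by positivity)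
            exact mul_le_mul_of_nonneg_left this (abs_nonneg _)
        _ = _ := by ring
    rw [u1, u2]
    have v1 : (2 * α + 1) / 2 * (r * (Real.sqrt l * |G c n 0 t x|)) ≤ (2 * α + 1) / 2 * B :=
      mul_le_mul_of_nonneg_left t0 (by positivity)
    have v2 : (2 * α + 1) * (r * (|y| * (Real.sqrt l * l * |G c n 1 t x|))) ≤ (2 * α + 1) * B :=
      mul_le_mul_of_nonneg_left t5 (by positivity)
    have v3 : (2 * α + 1) * B ≤ 3 * B := mul_le_mul_of_nonneg_right hα3 hB0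
    linarith
  have hE1b : |E1 α s l r c n t y| ≤ 10 * B := by
    unfold E1
    refine (habs3 _ _ _).trans ?_
    have u1 : |(2 * α + 1) * r / 2 * (Real.sqrt l * (G c n 1 t (s + l * y) * l))|
        = (2 * α + 1) / 2 * (r * (Real.sqrt l * l * |G c n 1 t x|)) := by
      rw [abs_mul, abs_mul, abs_mul, abs_of_nonneg hq0.le, abs_of_nonneg hl.le,
        abs_of_nonneg (by positivity : 0 ≤ (2 * α + 1) * r / 2)]
      ring
    have u2 : |Real.sqrt l * l ^ 3 * (H c n 1 t (s + l * y) * l)|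
        = Real.sqrt l * l ^ 4 * |H c n 1 t x| := by
      rw [abs_mul, abs_of_nonneg (by positivity : 0 ≤ Real.sqrt l * l ^ 3), abs_mul,
        abs_of_nonneg hl.le]
      ring
    have u3 : |Real.sqrt l * l * ((G c n 2 t (s + l * y) * l) * (1 + (2 * α + 1) * r * y)
          + G c n 1 t (s + l * y) * ((2 * α + 1) * r))|
        ≤ Real.sqrt l * l ^ 2 * |G c n 2 t x|
          + (2 * α + 1) * (r * (|y| * (Real.sqrt l * l ^ 2 * |G c n 2 t x|)))
          + (2 * α + 1) * (r * (Real.sqrt l * l * |G c n 1 t x|)) := by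
      rw [abs_mul, abs_of_nonneg (by positivity : 0 ≤ Real.sqrt l * l)]
      have w1 : |1 + (2 * α + 1) * r * y| ≤ 1 + (2 * α + 1) * r * |y| := by
        refine (abs_add_le _ _).trans ?_
        rw [abs_one, abs_mul, abs_of_nonneg (by positivity : 0 ≤ (2 * α + 1) * r)]
      have w2 : |(G c n 2 t (s + l * y) * l) * (1 + (2 * α + 1) * r * y)
          + G c n 1 t (s + l * y) * ((2 * α + 1) * r)|
          ≤ (|G c n 2 t x| * l) * (1 + (2 * α + 1) * r * |y|)
            + |G c n 1 t x| * ((2 * α + 1) * r) := by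
        refine (abs_add_le _ _).trans (add_le_add ?_ ?_)
        · rw [abs_mul, abs_mul, abs_of_nonneg hl.le]
          exact mul_le_mul_of_nonneg_left w1 (by positivity)
        · rw [abs_mul, abs_of_nonneg (by positivity : 0 ≤ (2 * α + 1) * r)]
      calc _ ≤ Real.sqrt l * l * ((|G c n 2 t x| * l) * (1 + (2 * α + 1) * r * |y|)
            + |G c n 1 t x| * ((2 * α + 1) * r)) := mul_le_mul_of_nonneg_left w2 (by positivity)
        _ = _ := by ring
    rw [u1, u2]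
    have v1 : (2 * α + 1) / 2 * (r * (Real.sqrt l * l * |G c n 1 t x|)) ≤ (2 * α + 1) / 2 * B :=
      mul_le_mul_of_nonneg_left t1' (by positivity)
    have v2 : (2 * α + 1) * (r * (|y| * (Real.sqrt l * l ^ 2 * |G c n 2 t x|)))
        ≤ (2 * α + 1) * B := mul_le_mul_of_nonneg_left t6' (by positivity)
    have v4 : (2 * α + 1) * (r * (Real.sqrt l * l * |G c n 1 t x|)) ≤ (2 * α + 1) * B :=
      mul_le_mul_of_nonneg_left t1' (by positivity)
    have v3 : (2 * α + 1) * B ≤ 3 * B := mul_le_mul_of_nonneg_right hα3 hB0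
    linarith
  have h10 : 10 * B = 2560 * A * r ^ ((7 : ℝ) / 4) := by rw [hB]; ring
  refine ⟨?_, ?_, ?_, ?_⟩
  · intro k hk
    rw [iter_inner c hc n t s l (Real.sqrt l) k y hx0, abs_mul,
      abs_of_nonneg (by positivity : 0 ≤ Real.sqrt l * l ^ k)]
    refine (bG k (by omega)).trans ?_
    exact mul_le_mul_of_nonneg_right hCA (by positivity)
  · have e1 := iter_inner c hc n t s l (Real.sqrt l) 1 y hx0
    rw [iteratedDeriv_one] at e1
    rw [e1, abs_mul, abs_of_nonneg (by positivity : 0 ≤ Real.sqrt l * l ^ 1)]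
    have := bY 0 (by norm_num)
    simp only [zero_add, Nat.cast_zero] at this
    refine this.trans ?_
    exact mul_le_mul_of_nonneg_right hCA (by positivity)
  · rw [(hT y hx0).deriv, abs_div, abs_of_pos hl3, mul_div_cancel₀ _ hl3.ne', ← h10]
    exact hEb
  · have hopen : IsOpen {y : ℝ | 0 < s + l * y} := isOpen_lt continuous_const (by fun_prop)
    have hev : (fun y' => deriv (fun τ => Real.sqrt (lam α τ) *
        G c n 0 τ (sig α τ + lam α τ * y')) t) =ᶠ[nhds y] fun y' => E α s l r c n t y' / l ^ 3 := by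
      filter_upwards [hopen.mem_nhds hx0] with z hz
      exact (hT z hz).deriv
    rw [hev.deriv_eq, ((hE α s l r c hc n t y hx0).div_const (l ^ 3)).deriv, abs_div,
      abs_of_pos hl3, mul_div_cancel₀ _ hl3.ne', ← h10]
    exact hE1b

end Pool.Agent.Helper41.KV
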