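import Pool.Agent.Helper48.KV.GoalsJ

/-!
# Packet KV-J JZ: a global smooth coordinate
-/

set_option autoImplicit false

namespace Pool.Agent.Helper59.KV

open Pool.Agent.Helper48.KV

/-- cut off identity -/
noncomputable def gz59 (x : ℝ) : ℝ := x * Real.smoothTransition (2 - x)

lemma gz59_smooth : ContDiff ℝ (⊤ : ℕ∞) gz59 := by
  unfold gz59
  exact contDiff_id.mul (Real.smoothTransition.contDiff.comp (contDiff_const.sub contDiff_id))

lemma gz59_left (x : ℝ) (hx : x ≤ 1) : gz59 x = x := by
  unfold gz59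
  rw [Real.smoothTransition.one_of_one_le (by linarith), mul_one]

lemma gz59_right (x : ℝ) (hx : 2 ≤ x) : gz59 x = 0 := by
  unfold gz59
  rw [Real.smoothTransition.zero_of_nonpos (by linarith), mul_zero]

lemma gz59_le (x : ℝ) : gz59 x ≤ 2 := by
  rcases le_total 2 x with h | h
  · rw [gz59_right x h]; norm_num
  · have h0 := Real.smoothTransition.nonneg (2 - x)
    have h1 := Real.smoothTransition.le_one (2 - x)
    unfold gz59
    rcases le_total x 0 with h2 | h2
    · have : x * Real.smoothTransition (2 - x) ≤ 0 := mul_nonpos_of_nonpos_of_nonneg h2 h0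
      linarith
    · calc x * Real.smoothTransition (2 - x) ≤ x * 1 := mul_le_mul_of_nonneg_left h1 h2
        _ ≤ 2 := by linarith

lemma gz59_deriv_left (x : ℝ) (hx : x < 1) : deriv gz59 x = 1 := by
  have : gz59 =ᶠ[nhds x] fun y => y := by
    filter_upwards [Iio_mem_nhds hx] with y hy
    exact gz59_left y (le_of_lt hy)
  rw [this.deriv_eq]
  exact deriv_id x

lemma gz59_deriv_right (x : ℝ) (hx : 2 < x) : deriv gz59 x = 0 := by
  have : gz59 =ᶠ[nhds x] fun _ => (0 : ℝ) := by
    filter_upwards [Ioi_mem_nhds hx] with y hy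
    exact gz59_right y (le_of_lt hy)
  rw [this.deriv_eq]
  exact deriv_const x 0

lemma gz59_bdd : ∃ D : ℝ, 0 ≤ D ∧ ∀ x, |deriv gz59 x| ≤ D := by
  have hc : Continuous (deriv gz59) := gz59_smooth.continuous_deriv (by simp)
  obtain ⟨C, hC⟩ := (isCompact_Icc (a := (1 : ℝ)) (b := 2)).exists_bound_of_continuousOn
    hc.continuousOn
  refine ⟨max C 1, le_max_of_le_right zero_le_one, fun x => ?_⟩
  rcases lt_or_ge x 1 with h | h
  · rw [gz59_deriv_left x h, abs_one]; exact le_max_right _ _
  · rcases lt_or_ge 2 x with h2 | h2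
    · rw [gz59_deriv_right x h2, abs_zero]; exact le_max_of_le_right zero_le_one
    · exact (hC x ⟨h, h2⟩).trans (le_max_left _ _)

lemma gz59_supp : HasCompactSupport (deriv (deriv gz59)) := by
  refine HasCompactSupport.intro (isCompact_Icc (a := (1 : ℝ)) (b := 2)) fun x hx => ?_
  rcases lt_or_ge x 1 with h | h
  · have : deriv gz59 =ᶠ[nhds x] fun _ => (1 : ℝ) := by
      filter_upwards [Iio_mem_nhds h] with y hy
      exact gz59_deriv_left y hy
    rw [this.deriv_eq]
    exact deriv_const x 1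
  · have h2 : 2 < x := by
      by_contra h2
      exact hx ⟨h, not_lt.1 h2⟩
    have : deriv gz59 =ᶠ[nhds x] fun _ => (0 : ℝ) := by
      filter_upwards [Ioi_mem_nhds h2] with y hy
      exact gz59_deriv_right y hy
    rw [this.deriv_eq]
    exact deriv_const x 0

lemma bdd59 (f : ℝ → ℝ) (hf : ContDiff ℝ (⊤ : ℕ∞) f) (hs : HasCompactSupport f) (k : ℕ) :
    ∃ C : ℝ, ∀ x, |iteratedDeriv k f x| ≤ C := by
  have h1 : Continuous (iteratedFDeriv ℝ k f) :=
    hf.continuous_iteratedFDeriv (by exact_mod_cast le_top)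
  obtain ⟨C, hC⟩ := h1.bounded_above_of_compact_support (hs.iteratedFDeriv k)
  refine ⟨C, fun z => ?_⟩
  rw [← Real.norm_eq_abs, ← norm_iteratedFDeriv_eq_norm_iteratedDeriv]
  exact hC z

theorem jz : S_JZ := by
  obtain ⟨D, hD0, hD⟩ := gz59_bdd
  have hdz : ∀ A : ℝ, deriv (fun x => A - gz59 x) = fun x => - deriv gz59 x := by
    intro A
    funext x
    rw [deriv_const_sub]
  refine ⟨fun x => (102 + 10 * (D + 1)) - gz59 x, 102 + 10 * (D + 1), ?_⟩
  refine { smooth := contDiff_const.sub gz59_smooth, lin := ?_, ge := ?_, d1 := ?_, bd := ?_ }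
  · intro x hx
    simp only [gz59_left x hx]
  · intro x
    have := gz59_le x
    linarith
  · intro x
    rw [hdz, abs_neg]
    have h1 := gz59_le x
    have h2 := hD x
    linarith
  · intro k hk
    rcases Nat.lt_or_ge k 2 with h | h
    · have : k = 1 := by omega
      subst this
      refine ⟨D, fun x => ?_⟩
      rw [iteratedDeriv_one, hdz, abs_neg]
      exact hD x
    · obtain ⟨j, rfl⟩ : ∃ j, k = j + 2 := ⟨k - 2, by omega⟩
      have hsm : ContDiff ℝ (⊤ : ℕ∞) (deriv (deriv gz59)) := by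
        have h3 : ContDiff ℝ (⊤ : ℕ∞) (deriv gz59) :=
          (contDiff_infty_iff_deriv.1 gz59_smooth).2
        exact (contDiff_infty_iff_deriv.1 h3).2
      obtain ⟨C, hC⟩ := bdd59 _ hsm gz59_supp j
      refine ⟨C, fun x => ?_⟩
      have e1 : deriv (fun x => - deriv gz59 x) = fun x => - deriv (deriv gz59) x := by
        funext x
        exact deriv.fun_neg
      rw [iteratedDeriv_succ', iteratedDeriv_succ', hdz, e1, iteratedDeriv_fun_neg, abs_neg]
      exact hC x

end Pool.Agent.Helper59.KV
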